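import Pool.Agent.W2helper83.Cir.Mel

/-!
# Double counting
-/

set_option autoImplicit false

namespace Pool.Agent.W2helper83.Cir

open Finset Pool.Agent.Helper543.Melchior

noncomputable section

open scoped Classical

variable {P : Finset Pt}

/-- double counting of triples -/
lemma dc {T : Finset (Pt × Pt × Pt)} (hT : T ⊆ trip P) :
    (T.card : ℤ) = ∑ K ∈ blocks P, ((T.filter (fun t => t.1 ∈ K ∧ t.2.1 ∈ K ∧ t.2.2 ∈ K)).card : ℤ) := by
  have h1 : ∀ t ∈ T, ((blocks P).filter (fun K => t.1 ∈ K ∧ t.2.1 ∈ K ∧ t.2.2 ∈ K)).card = 1 := by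
    intro t ht
    obtain ⟨h1, h2, h3, h4, h5, h6⟩ := mem_trip.1 (hT ht)
    rw [filter_three h1 h2 h3 h4 h5 h6, card_singleton]
  have h2 := sum_card_bipartiteAbove_eq_sum_card_bipartiteBelow
    (fun (t : Pt × Pt × Pt) (K : Finset Pt) => t.1 ∈ K ∧ t.2.1 ∈ K ∧ t.2.2 ∈ K) (s := T) (t := blocks P)
  unfold bipartiteAbove bipartiteBelow at h2
  rw [sum_congr rfl h1, sum_const, smul_eq_mul, mul_one] at h2
  rw [h2]
  push_cast
  rfl

lemma card_T2 (A B : Finset Pt) :
    (((A ×ˢ A ×ˢ B).filter (fun t => t.1 ≠ t.2.1)).card : ℤ) = A.card * (A.card - 1) * B.card := by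
  have : (A ×ˢ A ×ˢ B).filter (fun t => t.1 ≠ t.2.1) =
      A.biUnion (fun a => (A.erase a).biUnion (fun b => B.image (fun q => (a, b, q)))) := by
    ext ⟨a, b, q⟩
    simp only [mem_filter, mem_product, mem_biUnion, mem_image, mem_erase, Prod.mk.injEq]
    constructor
    · rintro ⟨⟨h1, h2, h3⟩, h4⟩
      exact ⟨a, h1, b, ⟨h4.symm, h2⟩, q, h3, rfl, rfl, rfl⟩
    · rintro ⟨a', h1, b', ⟨h2, h3⟩, q', h4, rfl, rfl, rfl⟩
      exact ⟨⟨h1, h3, h4⟩, h2.symm⟩
  rw [this, card_biUnion]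
  · have : ∀ a ∈ A, (((A.erase a).biUnion (fun b => B.image (fun q => (a, b, q)))).card : ℤ) =
        (A.card - 1) * B.card := by
      intro a ha
      rw [card_biUnion]
      · have h1 : ∀ b ∈ A.erase a, (B.image (fun q => (a, b, q))).card = B.card := by
          intro b _
          rw [card_image_of_injective]
          intro q q' h
          simpa using h
        rw [sum_congr rfl h1, sum_const, smul_eq_mul, card_erase_of_mem ha]
        have : 1 ≤ A.card := card_pos.2 ⟨a, ha⟩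
        push_cast [Nat.cast_sub this]
        ring
      · intro b _ b' _ hne
        rw [Function.onFun, disjoint_left]
        intro t ht ht'
        rw [mem_image] at ht ht'
        obtain ⟨q, _, rfl⟩ := ht
        obtain ⟨q', _, h⟩ := ht'
        simp only [Prod.mk.injEq, true_and] at h
        exact hne h.1.symm
    push_cast
    rw [sum_congr rfl this, sum_const, nsmul_eq_mul]
    ring
  · intro a _ a' _ hne
    rw [Function.onFun, disjoint_left]
    intro t ht ht'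
    rw [mem_biUnion] at ht ht'
    obtain ⟨b, _, hb⟩ := ht
    obtain ⟨b', _, hb'⟩ := ht'
    rw [mem_image] at hb hb'
    obtain ⟨q, _, rfl⟩ := hb
    obtain ⟨q', _, h⟩ := hb'
    simp only [Prod.mk.injEq] at h
    exact hne h.1.symm

lemma card_T1 (A B : Finset Pt) :
    (((A ×ˢ B ×ˢ B).filter (fun t => t.2.1 ≠ t.2.2)).card : ℤ) = A.card * (B.card * (B.card - 1)) := by
  have : (A ×ˢ B ×ˢ B).filter (fun t => t.2.1 ≠ t.2.2) = A ×ˢ B.offDiag := by
    ext ⟨a, b, q⟩
    simp only [mem_filter, mem_product, mem_offDiag]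
    tauto
  rw [this, card_product, offDiag_card]
  rcases Nat.eq_zero_or_pos B.card with h | h
  · rw [h]; simp
  · have : B.card ≤ B.card * B.card := Nat.le_mul_of_pos_left _ h
    push_cast [Nat.cast_sub this]
    ring

lemma card_trip (A : Finset Pt) : ((trip A).card : ℤ) = A.card * (A.card - 1) * (A.card - 2) := by
  have : trip A = A.biUnion (fun a => ((A.erase a).offDiag).image (fun t => (a, t))) := by
    ext ⟨a, b, c⟩
    simp only [mem_trip, mem_biUnion, mem_image, mem_offDiag, mem_erase, Prod.mk.injEq]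
    constructor
    · rintro ⟨h1, h2, h3, h4, h5, h6⟩
      exact ⟨a, h1, (b, c), ⟨⟨h4.symm, h2⟩, ⟨h5.symm, h3⟩, h6⟩, rfl, rfl⟩
    · rintro ⟨a', h1, ⟨b', c'⟩, ⟨⟨h2, h3⟩, ⟨h4, h5⟩, h6⟩, h7, h8⟩
      simp only [Prod.mk.injEq] at h8
      obtain ⟨rfl, rfl⟩ := h8
      subst h7
      exact ⟨h1, h3, h5, fun h => h2 h.symm, fun h => h4 h.symm, h6⟩
  rw [this, card_biUnion]
  · have : ∀ a ∈ A, ((((A.erase a).offDiag).image (fun t => (a, t))).card : ℤ) =
        (A.card - 1) * (A.card - 2) := by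
      intro a ha
      rw [card_image_of_injective _ (by intro t t' h; simpa using h), offDiag_card]
      have h1 : 1 ≤ A.card := card_pos.2 ⟨a, ha⟩
      have h2 : ((A.erase a).card : ℤ) = A.card - 1 := by
        rw [card_erase_of_mem ha]; push_cast [Nat.cast_sub h1]; ring
      rcases Nat.eq_zero_or_pos (A.erase a).card with h | h
      · rw [h] at h2 ⊢
        have : (A.card : ℤ) - 1 = 0 := by rw [← h2]; simp
        rw [this]; simp
      · have h3 : (A.erase a).card ≤ (A.erase a).card * (A.erase a).card := Nat.le_mul_of_pos_left _ h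
        push_cast [Nat.cast_sub h3]
        rw [h2]
        ring
    push_cast
    rw [sum_congr rfl this, sum_const, nsmul_eq_mul]
    ring
  · intro a _ a' _ hne
    rw [Function.onFun, disjoint_left]
    intro t ht ht'
    rw [mem_image] at ht ht'
    obtain ⟨q, _, rfl⟩ := ht
    obtain ⟨q', _, h⟩ := ht'
    simp only [Prod.mk.injEq] at h
    exact hne h.1.symm

/-- all triples -/
lemma F0 : ∑ K ∈ blocks P, ((K.card : ℤ) * (K.card - 1) * (K.card - 2)) =
    P.card * (P.card - 1) * (P.card - 2) := by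
  rw [← card_trip, dc (Subset.refl (trip P))]
  apply sum_congr rfl
  intro K hK
  rw [← card_trip]
  congr 2
  ext t
  have := blocks_sub hK
  rw [mem_filter, mem_trip, mem_trip]
  constructor
  · rintro ⟨h1, h2, h3, h4, h5, h6⟩
    exact ⟨⟨this h1, this h2, this h3, h4, h5, h6⟩, h1, h2, h3⟩
  · rintro ⟨⟨_, _, _, h4, h5, h6⟩, h1, h2, h3⟩
    exact ⟨h1, h2, h3, h4, h5, h6⟩

variable {γ : Finset Pt}

/-- triples outside `γ` -/
lemma F3 (Q : Finset Pt) (hQ : Q ⊆ P) : ∑ K ∈ blocks P, (((K ∩ Q).card : ℤ) * ((K ∩ Q).card - 1) * ((K ∩ Q).card - 2)) =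
    Q.card * (Q.card - 1) * (Q.card - 2) := by
  have hsub : trip Q ⊆ trip P := by
    intro t ht
    rw [mem_trip] at ht ⊢
    obtain ⟨h1, h2, h3, h4⟩ := ht
    exact ⟨hQ h1, hQ h2, hQ h3, h4⟩
  rw [← card_trip, dc hsub]
  apply sum_congr rfl
  intro K hK
  rw [← card_trip]
  congr 2
  ext t
  rw [mem_filter, mem_trip, mem_trip, mem_inter, mem_inter, mem_inter]
  tauto

/-- two points in `A`, one in `B` -/
lemma F1 (A B : Finset Pt) (hA : A ⊆ P) (hB : B ⊆ P) (hAB : Disjoint A B) :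
    ∑ K ∈ blocks P, (((K ∩ A).card : ℤ) * ((K ∩ A).card - 1) * (K ∩ B).card) =
    A.card * (A.card - 1) * B.card := by
  have hne : ∀ x ∈ A, ∀ y ∈ B, x ≠ y := fun x hx y hy h => disjoint_left.1 hAB hx (h ▸ hy)
  have hsub : (A ×ˢ A ×ˢ B).filter (fun t => t.1 ≠ t.2.1) ⊆ trip P := by
    intro t ht
    rw [mem_filter, mem_product, mem_product] at ht
    obtain ⟨⟨h1, h2, h3⟩, h4⟩ := ht
    exact mem_trip.2 ⟨hA h1, hA h2, hB h3, h4, hne _ h1 _ h3, hne _ h2 _ h3⟩
  rw [← card_T2, dc hsub]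
  apply sum_congr rfl
  intro K hK
  rw [← card_T2]
  congr 2
  ext t
  simp only [mem_filter, mem_product, mem_inter]
  tauto

/-- one point in `A`, two in `B` -/
lemma F2 (A B : Finset Pt) (hA : A ⊆ P) (hB : B ⊆ P) (hAB : Disjoint A B) :
    ∑ K ∈ blocks P, (((K ∩ A).card : ℤ) * ((K ∩ B).card * ((K ∩ B).card - 1))) =
    A.card * (B.card * (B.card - 1)) := by
  have hne : ∀ x ∈ A, ∀ y ∈ B, x ≠ y := fun x hx y hy h => disjoint_left.1 hAB hx (h ▸ hy)
  have hsub : (A ×ˢ B ×ˢ B).filter (fun t => t.2.1 ≠ t.2.2) ⊆ trip P := by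
    intro t ht
    rw [mem_filter, mem_product, mem_product] at ht
    obtain ⟨⟨h1, h2, h3⟩, h4⟩ := ht
    exact mem_trip.2 ⟨hA h1, hB h2, hB h3, hne _ h1 _ h2, hne _ h1 _ h3, h4⟩
  rw [← card_T1, dc hsub]
  apply sum_congr rfl
  intro K hK
  rw [← card_T1]
  congr 2
  ext t
  simp only [mem_filter, mem_product, mem_inter]
  tauto

/-- weights on the points -/
lemma weights (B : Finset (Finset Pt)) (hB : ∀ K ∈ B, K ⊆ P) (w : Pt → ℤ) (g : Finset Pt → ℤ) :
    ∑ p ∈ P, w p * ∑ K ∈ B.filter (fun K => p ∈ K), g K = ∑ K ∈ B, g K * ∑ p ∈ K, w p := by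
  simp_rw [mul_sum, sum_filter]
  rw [sum_comm]
  apply sum_congr rfl
  intro K hK
  rw [← sum_filter]
  have : P.filter (fun p => p ∈ K) = K := by
    ext p
    rw [mem_filter]
    exact ⟨fun h => h.2, fun h => ⟨hB K hK h, h⟩⟩
  rw [this]
  apply sum_congr rfl
  intro p _
  ring

/-- Melchior's inequalities, summed with weights -/
lemma mel1_w (hP : P ∉ blocks P) (h3 : 3 ≤ P.card) (w : Pt → ℤ) (hw : ∀ p ∈ P, 0 ≤ w p) :
    3 * ∑ p ∈ P, w p ≤ ∑ K ∈ blocks P, (4 - (K.card : ℤ)) * ∑ p ∈ K, w p := by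
  rw [← weights (blocks P) (fun K hK => blocks_sub hK), mul_sum]
  apply sum_le_sum
  intro p hp
  have := mel1 hp hP h3
  have h1 := hw p hp
  nlinarith

lemma mel2_w (hP : P ∉ blocks P) (h3 : 3 ≤ P.card) (w : Pt → ℤ) (hw : ∀ p ∈ P, 0 ≤ w p) :
    (4 - (P.card : ℤ)) * ∑ p ∈ P, w p ≤ ∑ K ∈ circs P, (4 - (K.card : ℤ)) * ∑ p ∈ K, w p -
      2 * ∑ K ∈ lins P, ((K.card : ℤ) - 2) * ∑ p ∈ K, w p := by
  rw [← weights (circs P) (fun K hK => blocks_sub (mem_filter.1 hK).1),
    ← weights (lins P) (fun K hK => blocks_sub (mem_filter.1 hK).1), mul_sum, mul_sum, ← sum_sub_distrib]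
  apply sum_le_sum
  intro p hp
  have := mel2 hp hP h3
  have h1 := hw p hp
  nlinarith

lemma sum_blocks (g : Finset Pt → ℤ) : ∑ K ∈ blocks P, g K = ∑ K ∈ circs P, g K + ∑ K ∈ lins P, g K := by
  unfold circs lins
  rw [add_comm, sum_filter_add_sum_filter_not]

/-- first bound: no block with more than `M` points -/
theorem boundA (hP : P ∉ blocks P) (h3 : 3 ≤ P.card) {M : ℕ} (hM3 : 3 ≤ M) (hM : ∀ K ∈ blocks P, K.card ≤ M) :
    3 * ((M:ℤ) - 1) * (P.card * (P.card - 1) * (P.card - 2)) + (2 * M ^ 2 - 2 * M + 6) * (3 * P.card) +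
      M * (M + 2) * ((4 - P.card) * P.card) ≤ 9 * M * (M + 2) * (circs P).card := by
  have h0 := F0 (P := P)
  have h1 := mel1_w hP h3 (fun _ => 1) (by simp)
  have h2 := mel2_w hP h3 (fun _ => 1) (by simp)
  simp only [sum_const, nsmul_eq_mul, mul_one] at h1 h2
  rw [sum_blocks] at h0 h1
  have hM3' : (3:ℤ) ≤ M := by exact_mod_cast hM3
  have hc : ∑ K ∈ circs P, (3 * ((M:ℤ) - 1) * ((K.card : ℤ) * (K.card - 1) * (K.card - 2)) +
      (2 * M ^ 2 - 2 * M + 6) * ((4 - (K.card : ℤ)) * K.card) + M * (M + 2) * ((4 - (K.card : ℤ)) * K.card)) ≤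
      ∑ K ∈ circs P, (9 * (M:ℤ) * (M + 2)) := by
    apply sum_le_sum
    intro K hK
    have hK' := (mem_filter.1 hK).1
    have k1 : (3:ℤ) ≤ K.card := by exact_mod_cast three_le hK'
    have k2 : (K.card : ℤ) ≤ M := by exact_mod_cast hM K hK'
    generalize (K.card : ℤ) = κ at *
    generalize (M : ℤ) = m at *
    have e : 9 * m * (m + 2) - (3 * (m - 1) * (κ * (κ - 1) * (κ - 2)) + (2 * m ^ 2 - 2 * m + 6) * ((4 - κ) * κ) +
        m * (m + 2) * ((4 - κ) * κ)) = 3 * (κ - 3) * ((m - κ) * ((κ - 1) * (m - 1) - 3)) := by ring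
    have h4 : 0 ≤ (κ - 1) * (m - 1) - 3 := by nlinarith
    have h5 : 0 ≤ 3 * (κ - 3) * ((m - κ) * ((κ - 1) * (m - 1) - 3)) :=
      mul_nonneg (by linarith) (mul_nonneg (by linarith) h4)
    linarith
  have hl : ∑ K ∈ lins P, (3 * ((M:ℤ) - 1) * ((K.card : ℤ) * (K.card - 1) * (K.card - 2)) +
      (2 * M ^ 2 - 2 * M + 6) * ((4 - (K.card : ℤ)) * K.card) - M * (M + 2) * (2 * (((K.card : ℤ) - 2) * K.card))) ≤ 0 := by
    apply sum_nonpos
    intro K hK
    have hK' := (mem_filter.1 hK).1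
    have k1 : (3:ℤ) ≤ K.card := by exact_mod_cast three_le hK'
    have k2 : (K.card : ℤ) ≤ M := by exact_mod_cast hM K hK'
    generalize (K.card : ℤ) = κ at *
    generalize (M : ℤ) = m at *
    have e : 3 * (m - 1) * (κ * (κ - 1) * (κ - 2)) + (2 * m ^ 2 - 2 * m + 6) * ((4 - κ) * κ) -
        m * (m + 2) * (2 * ((κ - 2) * κ)) = - (κ * (κ - 3) * (4 * m * (m + 2) - 3 * (m - 1) * (κ + 2))) := by ring
    have h4 : 0 ≤ 4 * m * (m + 2) - 3 * (m - 1) * (κ + 2) := by nlinarith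
    have h5 : 0 ≤ κ * (κ - 3) * (4 * m * (m + 2) - 3 * (m - 1) * (κ + 2)) :=
      mul_nonneg (mul_nonneg (by linarith) (by linarith)) h4
    linarith
  rw [sum_const, nsmul_eq_mul] at hc
  simp only [sum_add_distrib, sum_sub_distrib, ← mul_sum] at hc hl
  have hw : 0 ≤ (M:ℤ) * (M + 2) := by nlinarith
  have hv : (0:ℤ) ≤ 2 * M ^ 2 - 2 * M + 6 := by nlinarith
  have h1' := mul_le_mul_of_nonneg_left h1 hv
  have h2' := mul_le_mul_of_nonneg_left h2 hw
  have h0' := congrArg (fun z => 3 * ((M:ℤ) - 1) * z) h0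
  linarith

lemma half {S : Finset (Finset Pt)} (h : ∀ K ∈ S, (K ∩ γ).card = 2)
    (hd : ∀ K ∈ S, ∀ L ∈ S, K ≠ L → Disjoint (K ∩ γ) (L ∩ γ)) : S.card ≤ γ.card / 2 := by
  have h1 : (S.biUnion (fun K => K ∩ γ)).card = ∑ K ∈ S, (K ∩ γ).card :=
    card_biUnion (fun K hK L hL hne => hd K hK L hL hne)
  rw [sum_congr rfl h, sum_const, smul_eq_mul] at h1
  have h2 : (S.biUnion (fun K => K ∩ γ)).card ≤ γ.card := by
    apply card_le_card
    intro x hx
    rw [mem_biUnion] at hx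
    obtain ⟨K, _, hx⟩ := hx
    exact mem_of_mem_inter_right hx
  omega

/-- a block different from `γ` has at most two points in `γ` -/
lemma inter_le (hγ : γ ∈ blocks P) {K : Finset Pt} (hK : K ∈ blocks P) (hne : K ≠ γ) : (K ∩ γ).card ≤ 2 := by
  by_contra hcon
  push Not at hcon
  obtain ⟨x, hx, y, hy, z, hz, h1, h2, h3⟩ := two_lt_card.1 hcon
  rw [mem_inter] at hx hy hz
  exact hne (block_eq hK hγ h1 h2 h3 hx.1 hy.1 hz.1 hx.2 hy.2 hz.2)

/-- second bound: direct count for a large block -/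
theorem boundB (hγ : γ ∈ blocks P) {Q : Finset Pt} (hQ : Q ⊆ P \ γ) (hj : 1 ≤ Q.card) :
    2 + (γ.card : ℤ) * (γ.card - 1) * Q.card - Q.card * (Q.card + 1) * ((γ.card / 2 : ℕ) : ℤ) ≤
      2 * (circs P).card := by
  have hQP : Q ⊆ P := fun x hx => (mem_sdiff.1 (hQ hx)).1
  have hQγ : ∀ x ∈ Q, x ∉ γ := fun x hx => (mem_sdiff.1 (hQ hx)).2
  have hdisj : Disjoint γ Q := disjoint_left.2 (fun x hx hx' => hQγ x hx' hx)
  set B2 := (blocks P).filter (fun K => K ≠ γ ∧ (K ∩ γ).card = 2) with hB2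
  set C2 := B2.filter (fun K => ¬ IsL K) with hC2
  set L2 := B2.filter (fun K => IsL K) with hL2
  have f1 := F1 γ Q (blocks_sub hγ) hQP hdisj
  -- only the blocks in `B2` count
  have f1' : ∑ K ∈ B2, (2 * ((K ∩ Q).card : ℤ)) = γ.card * (γ.card - 1) * Q.card := by
    rw [← f1, hB2, sum_filter]
    apply sum_congr rfl
    intro K hK
    by_cases h1 : K = γ
    · subst h1
      rw [if_neg (by simp), disjoint_iff_inter_eq_empty.1 hdisj]
      simp
    · have h2 := inter_le hγ hK h1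
      by_cases h3 : (K ∩ γ).card = 2
      · rw [if_pos ⟨h1, h3⟩, h3]
        push_cast; ring
      · rw [if_neg (fun h => h3 h.2)]
        have h4 : (K ∩ γ).card = 0 ∨ (K ∩ γ).card = 1 := by omega
        rcases h4 with h | h <;> rw [h] <;> simp
  have hsplit : ∑ K ∈ B2, (2 * ((K ∩ Q).card : ℤ)) = ∑ K ∈ L2, (2 * ((K ∩ Q).card : ℤ)) +
      ∑ K ∈ C2, (2 * ((K ∩ Q).card : ℤ)) := by
    rw [hL2, hC2, sum_filter_add_sum_filter_not]
  -- disjointness of the pairs
  have hdis : ∀ K ∈ B2, ∀ L ∈ B2, ∀ p ∈ K, p ∈ L → ∀ q ∈ K, q ∈ L → p ∉ γ → q ∉ γ → p ≠ q → K ≠ L →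
      Disjoint (K ∩ γ) (L ∩ γ) := by
    intro K hK L hL p hpK hpL q hqK hqL hpγ hqγ hpq hne
    rw [disjoint_left]
    intro x hx hx'
    rw [mem_inter] at hx hx'
    apply hne
    have h1 : x ≠ p := fun h => hpγ (h ▸ hx.2)
    have h2 : x ≠ q := fun h => hqγ (h ▸ hx.2)
    exact block_eq (mem_filter.1 hK).1 (mem_filter.1 hL).1 h1 h2 hpq hx.1 hpK hqK hx'.1 hpL hqL
  -- pairs outside
  have f4 : ∑ K ∈ C2, (((K ∩ Q).card : ℤ) * ((K ∩ Q).card - 1)) ≤
      Q.card * (Q.card - 1) * ((γ.card / 2 : ℕ) : ℤ) := by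
    have e1 : ∀ K : Finset Pt, ((K ∩ Q).card : ℤ) * ((K ∩ Q).card - 1) = ((K ∩ Q).offDiag.card : ℤ) := by
      intro K
      rw [offDiag_card]
      rcases Nat.eq_zero_or_pos (K ∩ Q).card with h | h
      · rw [h]; simp
      · have : (K ∩ Q).card ≤ (K ∩ Q).card * (K ∩ Q).card := Nat.le_mul_of_pos_left _ h
        push_cast [Nat.cast_sub this]
        ring
    have e2 : (Q.card : ℤ) * (Q.card - 1) = (Q.offDiag.card : ℤ) := by
      have := e1 Q
      rwa [inter_self] at this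
    rw [sum_congr rfl (fun K _ => e1 K), e2]
    have e3 : ∑ K ∈ C2, (K ∩ Q).offDiag.card =
        ∑ t ∈ Q.offDiag, (C2.filter (fun K => t.1 ∈ K ∧ t.2 ∈ K)).card := by
      have h2 := sum_card_bipartiteAbove_eq_sum_card_bipartiteBelow
        (fun (t : Pt × Pt) (K : Finset Pt) => t.1 ∈ K ∧ t.2 ∈ K) (s := Q.offDiag) (t := C2)
      unfold bipartiteAbove bipartiteBelow at h2
      rw [h2]
      apply sum_congr rfl
      intro K _
      congr 1
      ext t
      rw [mem_filter, mem_offDiag, mem_offDiag, mem_inter, mem_inter]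
      tauto
    have e4 : ∀ t ∈ Q.offDiag, (C2.filter (fun K => t.1 ∈ K ∧ t.2 ∈ K)).card ≤ γ.card / 2 := by
      intro t ht
      rw [mem_offDiag] at ht
      apply half
      · intro K hK
        exact (mem_filter.1 (mem_filter.1 (mem_filter.1 hK).1).1).2.2
      · intro K hK L hL hne
        have hK' := mem_filter.1 hK
        have hL' := mem_filter.1 hL
        exact hdis K (mem_filter.1 hK'.1).1 L (mem_filter.1 hL'.1).1 t.1 hK'.2.1 hL'.2.1 t.2 hK'.2.2 hL'.2.2
          (hQγ _ ht.1) (hQγ _ ht.2.1) ht.2.2 hne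
    have e5 := sum_le_sum e4
    rw [← e3, sum_const, smul_eq_mul] at e5
    exact_mod_cast e5
  -- the pointwise estimate
  have hpt : ∑ K ∈ C2, (2 * ((K ∩ Q).card : ℤ) - ((K ∩ Q).card : ℤ) * ((K ∩ Q).card - 1)) ≤ 2 * C2.card := by
    rw [mul_comm, ← nsmul_eq_mul, ← sum_const]
    apply sum_le_sum
    intro K _
    generalize hs : (K ∩ Q).card = s
    have : ((s:ℤ) - 1) * (s - 2) ≥ 0 := by
      rcases Nat.lt_or_ge s 2 with h | h
      · interval_cases s <;> norm_num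
      · have h' : (2:ℤ) ≤ s := by exact_mod_cast h
        nlinarith
    nlinarith
  rw [sum_sub_distrib] at hpt
  have hL : ∀ K ∈ L2, K ∈ B2 ∧ IsL K := fun K hK => mem_filter.1 hK
  by_cases hγL : IsL γ
  · -- `γ` is a line: no other line has two points on it
    have hL0 : L2 = ∅ := by
      rw [eq_empty_iff_forall_notMem]
      intro K hK
      obtain ⟨hKB, hKL⟩ := hL K hK
      obtain ⟨hKb, hKγ, hK2⟩ := mem_filter.1 hKB
      obtain ⟨x, hx, y, hy, hxy⟩ := one_lt_card.1 (by omega : 1 < (K ∩ γ).card)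
      rw [mem_inter] at hx hy
      exact hKγ ((isL_eq hKb hKL hx.1 hy.1 hxy).trans (isL_eq hγ hγL hx.2 hy.2 hxy).symm)
    rw [hL0, sum_empty, zero_add] at hsplit
    have hc : C2.card ≤ (circs P).card := by
      apply card_le_card
      intro K hK
      have := mem_filter.1 hK
      exact mem_filter.2 ⟨(mem_filter.1 this.1).1, this.2⟩
    have h3 := three_le hγ
    have hM1 : (1:ℤ) ≤ ((γ.card / 2 : ℕ) : ℤ) := by
      have : 1 ≤ γ.card / 2 := by omega
      exact_mod_cast this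
    have hc' : (C2.card : ℤ) ≤ (circs P).card := by exact_mod_cast hc
    have hj' : (1:ℤ) ≤ Q.card := by exact_mod_cast hj
    have : (1:ℤ) ≤ Q.card * ((γ.card / 2 : ℕ) : ℤ) := by nlinarith
    nlinarith
  · -- `γ` is a circle
    have hLs : ∑ K ∈ L2, (2 * ((K ∩ Q).card : ℤ)) ≤ 2 * (Q.card * ((γ.card / 2 : ℕ) : ℤ)) := by
      rw [← mul_sum]
      have e3 : ∑ K ∈ L2, (K ∩ Q).card = ∑ q ∈ Q, (L2.filter (fun K => q ∈ K)).card := by
        have h2 := sum_card_bipartiteAbove_eq_sum_card_bipartiteBelow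
          (fun (t : Pt) (K : Finset Pt) => t ∈ K) (s := Q) (t := L2)
        unfold bipartiteAbove bipartiteBelow at h2
        rw [h2]
        apply sum_congr rfl
        intro K _
        congr 1
        ext t
        rw [mem_filter, mem_inter]
        tauto
      have e4 : ∀ q ∈ Q, (L2.filter (fun K => q ∈ K)).card ≤ γ.card / 2 := by
        intro q hq
        apply half
        · intro K hK
          exact (mem_filter.1 (mem_filter.1 (mem_filter.1 hK).1).1).2.2
        · intro K hK L hL hne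
          have hK' := mem_filter.1 hK
          have hL' := mem_filter.1 hL
          rw [disjoint_left]
          intro x hx hx'
          rw [mem_inter] at hx hx'
          apply hne
          have hxq : x ≠ q := fun h => hQγ q hq (h ▸ hx.2)
          have a1 := mem_filter.1 hK'.1
          have a2 := mem_filter.1 hL'.1
          rw [isL_eq (mem_filter.1 a1.1).1 a1.2 hx.1 hK'.2 hxq, isL_eq (mem_filter.1 a2.1).1 a2.2 hx'.1 hL'.2 hxq]
      have e5 := sum_le_sum e4
      rw [← e3, sum_const, smul_eq_mul] at e5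
      have e6 : (∑ K ∈ L2, ((K ∩ Q).card : ℤ)) ≤ Q.card * ((γ.card / 2 : ℕ) : ℤ) := by exact_mod_cast e5
      linarith
    have hc : C2.card + 1 ≤ (circs P).card := by
      have hγc : γ ∈ circs P := mem_filter.2 ⟨hγ, hγL⟩
      have hsub : C2 ⊆ (circs P).erase γ := by
        intro K hK
        have := mem_filter.1 hK
        have h2 := mem_filter.1 this.1
        exact mem_erase.2 ⟨h2.2.1, mem_filter.2 ⟨h2.1, this.2⟩⟩
      have := card_le_card hsub
      rw [card_erase_of_mem hγc] at this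
      have := card_pos.2 ⟨γ, hγc⟩
      omega
    have hc' : (C2.card : ℤ) + 1 ≤ (circs P).card := by exact_mod_cast hc
    nlinarith

/-- third bound: weights depending on the position with respect to `γ` -/
theorem boundC (hP : P ∉ blocks P) (h3 : 3 ≤ P.card) (hγ : γ ∈ blocks P) (hM : ∀ K ∈ blocks P, K.card ≤ γ.card)
    (L u2 u1 u0 vo vg wo wg : ℤ) (hvo : 0 ≤ vo) (hvg : 0 ≤ vg) (hwo : 0 ≤ wo) (hwg : 0 ≤ wg)
    (hc : ∀ i s : ℕ, i ≤ 2 → 3 ≤ i + s → i + s ≤ γ.card → s ≤ P.card - γ.card →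
      u2 * ((i:ℤ) * (i - 1) * s) + u1 * (i * (s * (s - 1))) + u0 * (s * (s - 1) * (s - 2)) +
        (4 - i - s) * (vo * s + vg * i) + (4 - i - s) * (wo * s + wg * i) ≤ L)
    (hl : ∀ i s : ℕ, i ≤ 2 → 3 ≤ i + s → i + s ≤ γ.card → s ≤ P.card - γ.card →
      u2 * ((i:ℤ) * (i - 1) * s) + u1 * (i * (s * (s - 1))) + u0 * (s * (s - 1) * (s - 2)) +
        (4 - i - s) * (vo * s + vg * i) - 2 * ((i + s - 2) * (wo * s + wg * i)) ≤ 0) :
    u2 * ((γ.card : ℤ) * (γ.card - 1) * (P.card - γ.card)) +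
      u1 * (γ.card * ((P.card - γ.card) * (P.card - γ.card - 1))) +
      u0 * ((P.card - γ.card) * (P.card - γ.card - 1) * (P.card - γ.card - 2)) +
      3 * (vo * (P.card - γ.card) + vg * γ.card) - (4 - γ.card) * (vg * γ.card) +
      (4 - P.card) * (wo * (P.card - γ.card) + wg * γ.card) +
      min (L - (4 - γ.card) * (wg * γ.card)) (2 * ((γ.card - 2) * (wg * γ.card))) ≤ L * (circs P).card := by
  set Q := P \ γ with hQ
  have hγP := blocks_sub hγ
  have hQP : Q ⊆ P := sdiff_subset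
  have hdisj : Disjoint γ Q := disjoint_sdiff
  have hQc : (Q.card : ℤ) = P.card - γ.card := by
    rw [hQ, card_sdiff_of_subset hγP, Nat.cast_sub (card_le_card hγP)]
  have hQc' : Q.card = P.card - γ.card := by rw [hQ, card_sdiff_of_subset hγP]
  -- the point weights
  have hsplitK : ∀ K, K ⊆ P → ∀ a b : ℤ, ∑ p ∈ K, (if p ∈ γ then b else a) = a * (K ∩ Q).card + b * (K ∩ γ).card := by
    intro K hK a b
    rw [← sum_filter_add_sum_filter_not K (fun p => p ∈ γ)]
    have e1 : K.filter (fun p => p ∈ γ) = K ∩ γ := by ext x; simp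
    have e2 : K.filter (fun p => ¬ p ∈ γ) = K ∩ Q := by
      ext x
      rw [mem_filter, mem_inter, hQ, mem_sdiff]
      exact ⟨fun h => ⟨h.1, hK h.1, h.2⟩, fun h => ⟨h.1, h.2.2⟩⟩
    rw [e1, e2, sum_congr rfl (fun x (hx : x ∈ K ∩ γ) => if_pos (mem_inter.1 hx).2),
      sum_congr rfl (fun x (hx : x ∈ K ∩ Q) => if_neg (mem_sdiff.1 (mem_inter.1 hx).2).2)]
    simp only [sum_const, nsmul_eq_mul]
    ring
  have hcardK : ∀ K, K ⊆ P → (K.card : ℤ) = (K ∩ γ).card + (K ∩ Q).card := by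
    intro K hK
    have := hsplitK K hK 1 1
    simp only [ite_self, sum_const, nsmul_eq_mul, mul_one, one_mul] at this
    linarith
  have f1 := F1 γ Q hγP hQP hdisj
  have f2 := F2 γ Q hγP hQP hdisj
  have f3 := F3 Q hQP
  have m1 := mel1_w hP h3 (fun p => if p ∈ γ then vg else vo) (by intro p _; split_ifs <;> assumption)
  have m2 := mel2_w hP h3 (fun p => if p ∈ γ then wg else wo) (by intro p _; split_ifs <;> assumption)
  have hPγ : P ∩ γ = γ := inter_eq_right.2 hγP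
  have hPQ : P ∩ Q = Q := inter_eq_right.2 hQP
  rw [hsplitK P (Subset.refl _), hPγ, hPQ] at m1 m2
  rw [sum_congr rfl (fun K hK => by rw [hsplitK K (blocks_sub hK), hcardK K (blocks_sub hK)])] at m1
  rw [sum_congr rfl (fun K hK => by
      rw [hsplitK K (blocks_sub (mem_filter.1 hK).1), hcardK K (blocks_sub (mem_filter.1 hK).1)]),
    sum_congr (s₁ := lins P) rfl (fun K hK => by
      rw [hsplitK K (blocks_sub (mem_filter.1 hK).1), hcardK K (blocks_sub (mem_filter.1 hK).1)])] at m2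
  rw [sum_blocks] at f1 f2 f3 m1
  -- separate the block `γ`
  have hγγ : γ ∩ γ = γ := inter_self γ
  have hγQ : γ ∩ Q = ∅ := disjoint_iff_inter_eq_empty.1 hdisj
  -- the functions
  set fc : Finset Pt → ℤ := fun K => u2 * (((K ∩ γ).card : ℤ) * ((K ∩ γ).card - 1) * (K ∩ Q).card) +
      u1 * ((K ∩ γ).card * ((K ∩ Q).card * ((K ∩ Q).card - 1))) +
      u0 * ((K ∩ Q).card * ((K ∩ Q).card - 1) * ((K ∩ Q).card - 2)) +
      (4 - (((K ∩ γ).card : ℤ) + (K ∩ Q).card)) * (vo * (K ∩ Q).card + vg * (K ∩ γ).card) +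
      (4 - (((K ∩ γ).card : ℤ) + (K ∩ Q).card)) * (wo * (K ∩ Q).card + wg * (K ∩ γ).card) with hfc
  set fl : Finset Pt → ℤ := fun K => u2 * (((K ∩ γ).card : ℤ) * ((K ∩ γ).card - 1) * (K ∩ Q).card) +
      u1 * ((K ∩ γ).card * ((K ∩ Q).card * ((K ∩ Q).card - 1))) +
      u0 * ((K ∩ Q).card * ((K ∩ Q).card - 1) * ((K ∩ Q).card - 2)) +
      (4 - (((K ∩ γ).card : ℤ) + (K ∩ Q).card)) * (vo * (K ∩ Q).card + vg * (K ∩ γ).card) -
      2 * (((((K ∩ γ).card : ℤ) + (K ∩ Q).card) - 2) * (wo * (K ∩ Q).card + wg * (K ∩ γ).card)) with hfl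
  have htot : u2 * ((γ.card : ℤ) * (γ.card - 1) * Q.card) + u1 * (γ.card * (Q.card * (Q.card - 1))) +
      u0 * (Q.card * (Q.card - 1) * (Q.card - 2)) + 3 * (vo * Q.card + vg * γ.card) +
      (4 - P.card) * (wo * Q.card + wg * γ.card) ≤ ∑ K ∈ circs P, fc K + ∑ K ∈ lins P, fl K := by
    simp only [hfc, hfl, sum_add_distrib, sum_sub_distrib, ← mul_sum]
    have f1' := congrArg (fun z => u2 * z) f1
    have f2' := congrArg (fun z => u1 * z) f2
    have f3' := congrArg (fun z => u0 * z) f3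
    simp only [mul_add] at f1' f2' f3'
    linarith
  have hKs : ∀ K ∈ blocks P, (K ∩ Q).card ≤ P.card - γ.card := by
    intro K _
    rw [← hQc']
    exact card_le_card inter_subset_right
  have hbd : ∀ K ∈ blocks P, K ≠ γ → (K ∩ γ).card ≤ 2 ∧ 3 ≤ (K ∩ γ).card + (K ∩ Q).card ∧
      (K ∩ γ).card + (K ∩ Q).card ≤ γ.card := by
    intro K hK hne
    have h1 := hcardK K (blocks_sub hK)
    have h1' : K.card = (K ∩ γ).card + (K ∩ Q).card := by exact_mod_cast h1
    rw [← h1']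
    exact ⟨inter_le hγ hK hne, three_le hK, hM K hK⟩
  have hfcK : ∀ K ∈ circs P, K ≠ γ → fc K ≤ L := by
    intro K hK hne
    have hKb := (mem_filter.1 hK).1
    obtain ⟨a1, a2, a3⟩ := hbd K hKb hne
    have := hc _ _ a1 a2 a3 (hKs K hKb)
    simp only [hfc]
    have e : (4 - (((K ∩ γ).card : ℤ) + (K ∩ Q).card)) = 4 - (K ∩ γ).card - (K ∩ Q).card := by ring
    rw [e]
    exact this
  have hflK : ∀ K ∈ lins P, K ≠ γ → fl K ≤ 0 := by
    intro K hK hne
    have hKb := (mem_filter.1 hK).1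
    obtain ⟨a1, a2, a3⟩ := hbd K hKb hne
    have := hl _ _ a1 a2 a3 (hKs K hKb)
    simp only [hfl]
    have e : (4 - (((K ∩ γ).card : ℤ) + (K ∩ Q).card)) = 4 - (K ∩ γ).card - (K ∩ Q).card := by ring
    rw [e]
    exact this
  have hfcγ : fc γ = (4 - γ.card) * (vg * γ.card) + (4 - γ.card) * (wg * γ.card) := by
    simp only [hfc, hγγ, hγQ, card_empty, Nat.cast_zero]
    ring
  have hflγ : fl γ = (4 - γ.card) * (vg * γ.card) - 2 * ((γ.card - 2) * (wg * γ.card)) := by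
    simp only [hfl, hγγ, hγQ, card_empty, Nat.cast_zero]
    ring
  rw [← hQc]
  by_cases hγL : IsL γ
  · have hγl : γ ∈ lins P := mem_filter.2 ⟨hγ, hγL⟩
    have s1 : ∑ K ∈ circs P, fc K ≤ L * (circs P).card := by
      rw [mul_comm, ← nsmul_eq_mul, ← sum_const]
      apply sum_le_sum
      intro K hK
      apply hfcK K hK
      rintro rfl
      exact (mem_filter.1 hK).2 hγL
    have s2 : ∑ K ∈ lins P, fl K ≤ fl γ := by
      rw [← add_sum_erase _ _ hγl]
      have : ∑ K ∈ (lins P).erase γ, fl K ≤ 0 :=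
        sum_nonpos (fun K hK => hflK K (mem_of_mem_erase hK) (ne_of_mem_erase hK))
      linarith
    have := min_le_right (L - (4 - (γ.card : ℤ)) * (wg * γ.card)) (2 * ((γ.card - 2) * (wg * γ.card)))
    linarith
  · have hγc : γ ∈ circs P := mem_filter.2 ⟨hγ, hγL⟩
    have s1 : ∑ K ∈ circs P, fc K ≤ fc γ + L * ((circs P).card - 1) := by
      rw [← add_sum_erase _ _ hγc]
      have h1 : ∑ K ∈ (circs P).erase γ, fc K ≤ ∑ K ∈ (circs P).erase γ, L :=
        sum_le_sum (fun K hK => hfcK K (mem_of_mem_erase hK) (ne_of_mem_erase hK))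
      rw [sum_const, nsmul_eq_mul, card_erase_of_mem hγc, Nat.cast_sub (card_pos.2 ⟨γ, hγc⟩)] at h1
      push_cast at h1
      linarith
    have s2 : ∑ K ∈ lins P, fl K ≤ 0 := by
      apply sum_nonpos
      intro K hK
      apply hflK K hK
      rintro rfl
      exact hγL (mem_filter.1 hK).2
    have := min_le_left (L - (4 - (γ.card : ℤ)) * (wg * γ.card)) (2 * ((γ.card - 2) * (wg * γ.card)))
    linarith

end

end Pool.Agent.W2helper83.Cir
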