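import Pool.Agent.W2helper83.Cir.Low

/-!
# Circles determined by a finite set of the Euclidean plane
-/

set_option autoImplicit false

namespace Pool.Agent.W2helper83.Cir

open Finset Pool.Agent.Helper543.Melchior

/-- the Euclidean plane -/
abbrev E2 := EuclideanSpace ℝ (Fin 2)

/-- the circles determined by `P`: spheres of the plane through at least three points of `P` -/
def circles (P : Finset E2) : Set (EuclideanGeometry.Sphere E2) :=
  {s | ∃ a ∈ P, ∃ b ∈ P, ∃ c ∈ P, a ≠ b ∧ a ≠ c ∧ b ≠ c ∧ a ∈ s ∧ b ∈ s ∧ c ∈ s}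

/-- not all points on a line, not all points on a circle -/
def Admissible (P : Finset E2) : Prop :=
  ¬ Collinear ℝ (P : Set E2) ∧ ¬ EuclideanGeometry.Cospherical (P : Set E2)

noncomputable section

open scoped Classical

/-- coordinates -/
def phi (x : E2) : Pt := (x 0, x 1)

/-- a point with given coordinates -/
def psi (p : Pt) : E2 := !₂[p.1, p.2]

lemma psi_phi (x : E2) : psi (phi x) = x := by
  ext i
  fin_cases i <;> simp [psi, phi]

lemma phi_psi (x : Pt) : phi (psi x) = x := by
  simp [psi, phi]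

lemma phi_inj : Function.Injective phi := fun x y h => by
  rw [← psi_phi x, h, psi_phi]

lemma nn_phi (x y : E2) : nn (phi x - phi y) = dist x y ^ 2 := by
  rw [EuclideanSpace.dist_eq, Real.sq_sqrt (by positivity)]
  simp [nn, phi, Fin.sum_univ_two, Real.dist_eq, sq_abs]

lemma mem_sphere_iff {s : EuclideanGeometry.Sphere E2} (hs : 0 ≤ s.radius) (x : E2) :
    x ∈ s ↔ nn (phi x - phi s.center) = s.radius ^ 2 := by
  rw [nn_phi, EuclideanGeometry.mem_sphere]
  constructor
  · intro h; rw [h]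
  · intro h
    exact (pow_left_inj₀ dist_nonneg hs (by norm_num)).1 h

lemma radius_nonneg {s : EuclideanGeometry.Sphere E2} {x : E2} (hx : x ∈ s) : 0 ≤ s.radius := by
  rw [EuclideanGeometry.mem_sphere] at hx
  rw [← hx]; exact dist_nonneg

lemma cr_ne_zero {s : EuclideanGeometry.Sphere E2} {a b c : E2} (hab : a ≠ b) (hac : a ≠ c) (hbc : b ≠ c)
    (ha : a ∈ s) (hb : b ∈ s) (hc : c ∈ s) : cr (phi a) (phi b) (phi c) ≠ 0 := by
  intro h
  have hr := radius_nonneg ha
  rw [mem_sphere_iff hr] at ha hb hc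
  obtain ⟨t, h1, h2⟩ := exists_param (fun e => hab (phi_inj e)) h
  set A := phi a
  set B := phi b
  set C := phi c
  set o := phi s.center
  have hAC : A ≠ C := fun e => hac (phi_inj e)
  have hBC : B ≠ C := fun e => hbc (phi_inj e)
  have hAB : B ≠ A := fun e => hab (phi_inj e.symm)
  have e1 : C.1 = A.1 + t * (B.1 - A.1) := by linarith
  have e2 : C.2 = A.2 + t * (B.2 - A.2) := by linarith
  have hn := nn_pos hAB
  have key : t * (t - 1) * nn (B - A) = 0 := by
    have k : (nn (C - o) - s.radius ^ 2) - (nn (A - o) - s.radius ^ 2) -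
      t * ((nn (B - o) - s.radius ^ 2) - (nn (A - o) - s.radius ^ 2)) = t * (t - 1) * nn (B - A) := by
      simp only [nn, Prod.fst_sub, Prod.snd_sub, e1, e2]
      ring
    rw [← k, ha, hb, hc]
    ring
  rcases mul_eq_zero.1 key with h3 | h3
  · rcases mul_eq_zero.1 h3 with h4 | h4
    · apply hAC
      ext
      · rw [e1, h4]; ring
      · rw [e2, h4]; ring
    · apply hBC
      have : t = 1 := by linarith
      ext
      · rw [e1, this]; ring
      · rw [e2, this]; ring
  · exact absurd h3 hn.ne'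

lemma finrank_E2 : Module.finrank ℝ E2 = 2 := by simp

lemma sphere_eq {s t : EuclideanGeometry.Sphere E2} {a b c : E2} (hab : a ≠ b) (hac : a ≠ c) (hbc : b ≠ c)
    (ha : a ∈ s) (hb : b ∈ s) (hc : c ∈ s) (ha' : a ∈ t) (hb' : b ∈ t) (hc' : c ∈ t) : s = t := by
  by_contra hne
  rcases EuclideanGeometry.eq_of_mem_sphere_of_mem_sphere_of_finrank_eq_two finrank_E2 hne hab
    ha hb hc ha' hb' hc' with h | h
  · exact hac h.symm
  · exact hbc h.symm

/-- the sphere of a circle block -/
lemma exists_sphere {A B C : Pt} (h : cr A B C ≠ 0) :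
    ∃ s : EuclideanGeometry.Sphere E2, ∀ x : E2, x ∈ s ↔ D A B C (phi x) = 0 := by
  obtain ⟨o, ρ, hρ, h1⟩ := exists_circle h
  refine ⟨⟨psi o, Real.sqrt ρ⟩, fun x => ?_⟩
  rw [mem_sphere_iff (Real.sqrt_nonneg _), h1]
  simp only [phi_psi, Real.sq_sqrt hρ]

/-- the points of `P` on `s`, in coordinates -/
def pts (P : Finset E2) (s : EuclideanGeometry.Sphere E2) : Finset Pt := (P.filter (fun x => x ∈ s)).image phi

lemma pts_eq {P : Finset E2} {s : EuclideanGeometry.Sphere E2} {a b c : E2} (hab : a ≠ b) (hac : a ≠ c)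
    (hbc : b ≠ c) (ha : a ∈ s) (hb : b ∈ s) (hc : c ∈ s) :
    pts P s = blk (P.image phi) (phi a) (phi b) (phi c) := by
  obtain ⟨t, ht⟩ := exists_sphere (cr_ne_zero hab hac hbc ha hb hc)
  have hst : s = t := sphere_eq hab hac hbc ha hb hc ((ht a).2 (D_self1 _ _ _))
    ((ht b).2 (D_self2 _ _ _)) ((ht c).2 (D_self3 _ _ _))
  ext w
  simp only [pts, blk, mem_image, mem_filter]
  constructor
  · rintro ⟨x, ⟨hx, hxs⟩, rfl⟩
    exact ⟨⟨x, hx, rfl⟩, (ht x).1 (hst ▸ hxs)⟩
  · rintro ⟨⟨x, hx, rfl⟩, hD⟩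
    exact ⟨x, ⟨hx, by rw [hst]; exact (ht x).2 hD⟩, rfl⟩

lemma ncard_circles (P : Finset E2) : (circles P).ncard = (circs (P.image phi)).card := by
  have himg : (pts P) '' (circles P) = ↑(circs (P.image phi)) := by
    ext K
    simp only [Set.mem_image, mem_coe]
    constructor
    · rintro ⟨s, ⟨a, ha, b, hb, c, hc, hab, hac, hbc, has, hbs, hcs⟩, rfl⟩
      rw [pts_eq hab hac hbc has hbs hcs]
      have hK : blk (P.image phi) (phi a) (phi b) (phi c) ∈ blocks (P.image phi) :=
        blk_mem (mem_image_of_mem _ ha) (mem_image_of_mem _ hb) (mem_image_of_mem _ hc)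
          (fun e => hab (phi_inj e)) (fun e => hac (phi_inj e)) (fun e => hbc (phi_inj e))
      unfold circs
      rw [mem_filter]
      refine ⟨hK, fun hL => ?_⟩
      exact cr_ne_zero hab hac hbc has hbs hcs (hL _ (mem_blk.2 ⟨mem_image_of_mem _ ha, D_self1 _ _ _⟩)
        _ (mem_blk.2 ⟨mem_image_of_mem _ hb, D_self2 _ _ _⟩)
        _ (mem_blk.2 ⟨mem_image_of_mem _ hc, D_self3 _ _ _⟩))
    · intro hK
      unfold circs at hK
      rw [mem_filter] at hK
      obtain ⟨hK, hL⟩ := hK
      obtain ⟨x, hx, y, hy, z, hz, hxy, hxz, hyz, e⟩ := blocks_three hK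
      have hcr : cr x y z ≠ 0 := fun h => hL ((isL_iff hK hx hy hz hxy hxz hyz).2 h)
      obtain ⟨t, ht⟩ := exists_sphere hcr
      have hx' := blocks_sub hK hx
      have hy' := blocks_sub hK hy
      have hz' := blocks_sub hK hz
      rw [mem_image] at hx' hy' hz'
      obtain ⟨a, ha, rfl⟩ := hx'
      obtain ⟨b, hb, rfl⟩ := hy'
      obtain ⟨c, hc, rfl⟩ := hz'
      have hat := (ht a).2 (D_self1 _ _ _)
      have hbt := (ht b).2 (D_self2 _ _ _)
      have hct := (ht c).2 (D_self3 _ _ _)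
      have hab : a ≠ b := fun h => hxy (by rw [h])
      have hac : a ≠ c := fun h => hxz (by rw [h])
      have hbc : b ≠ c := fun h => hyz (by rw [h])
      exact ⟨t, ⟨a, ha, b, hb, c, hc, hab, hac, hbc, hat, hbt, hct⟩, by
        rw [pts_eq hab hac hbc hat hbt hct, e]⟩
  rw [← Set.ncard_coe_finset (circs (P.image phi)), ← himg, Set.InjOn.ncard_image]
  rintro s ⟨a, ha, b, hb, c, hc, hab, hac, hbc, has, hbs, hcs⟩ t - hst
  have k : ∀ x ∈ P, x ∈ s → x ∈ t := by
    intro x hx hxs
    have h1 : phi x ∈ pts P s := mem_image_of_mem _ (mem_filter.2 ⟨hx, hxs⟩)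
    rw [hst] at h1
    unfold pts at h1
    rw [mem_image] at h1
    obtain ⟨y, hy, e⟩ := h1
    rw [← phi_inj e]
    exact (mem_filter.1 hy).2
  exact sphere_eq hab hac hbc has hbs hcs (k a ha has) (k b hb hbs) (k c hc hcs)

lemma not_block {P : Finset E2} (h : Admissible P) : P.image phi ∉ blocks (P.image phi) := by
  intro hK
  obtain ⟨x, hx, y, hy, z, hz, hxy, hxz, hyz, e⟩ := blocks_three hK
  have hx' := hx
  have hy' := hy
  have hz' := hz
  rw [mem_image] at hx' hy' hz'
  obtain ⟨a, ha, rfl⟩ := hx'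
  obtain ⟨b, hb, rfl⟩ := hy'
  obtain ⟨c, hc, rfl⟩ := hz'
  by_cases hcr : cr (phi a) (phi b) (phi c) = 0
  · apply h.1
    have hab : a ≠ b := fun h => hxy (by rw [h])
    rw [collinear_iff_of_mem (p₀ := a) (by exact_mod_cast ha)]
    refine ⟨b - a, fun p hp => ?_⟩
    have hp' : phi p ∈ P.image phi := mem_image_of_mem _ (by exact_mod_cast hp)
    rw [e, mem_blk, D_line hxy hxz hyz hcr] at hp'
    obtain ⟨t, h1, h2⟩ := exists_param hxy hp'.2
    refine ⟨t, ?_⟩
    simp only [vadd_eq_add]
    ext i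
    fin_cases i
    · simp only [phi] at h1
      simp
      linarith
    · simp only [phi] at h2
      simp
      linarith
  · apply h.2
    obtain ⟨t, ht⟩ := exists_sphere hcr
    refine ⟨t.center, t.radius, fun p hp => ?_⟩
    have hp' : phi p ∈ P.image phi := mem_image_of_mem _ (by exact_mod_cast hp)
    rw [e, mem_blk] at hp'
    exact EuclideanGeometry.mem_sphere.1 ((ht p).2 hp'.2)

/-! ### the construction -/

/-- points of the unit circle -/
def uu (j : ℕ) : E2 := !₂[(1 - (1 / ((j : ℝ) + 2)) ^ 2) / (1 + (1 / ((j : ℝ) + 2)) ^ 2),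
  2 * (1 / ((j : ℝ) + 2)) / (1 + (1 / ((j : ℝ) + 2)) ^ 2)]

/-- the unit circle -/
def unit : EuclideanGeometry.Sphere E2 := ⟨0, 1⟩

lemma uu_mem (j : ℕ) : uu j ∈ unit := by
  rw [mem_sphere_iff (by simp [unit])]
  simp only [nn, phi, uu, unit, Prod.fst_sub, Prod.snd_sub, PiLp.zero_apply, sub_zero,
    PiLp.toLp_apply, Matrix.cons_val_zero, Matrix.cons_val_one, one_pow]
  generalize 1 / ((j : ℝ) + 2) = t
  have : (1 + t ^ 2) ≠ 0 := by positivity
  field_simp
  ring

lemma neg_mem {x : E2} (h : x ∈ unit) : - x ∈ unit := by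
  rw [EuclideanGeometry.mem_sphere] at h ⊢
  simpa [unit] using h

lemma uu_pos (j : ℕ) : 0 < (uu j) 0 := by
  simp only [uu, PiLp.toLp_apply, Matrix.cons_val_zero]
  apply div_pos _ (by positivity)
  have h1 : (1 / ((j : ℝ) + 2)) ≤ 1 / 2 := by
    apply one_div_le_one_div_of_le (by norm_num)
    have : (0:ℝ) ≤ j := Nat.cast_nonneg j
    linarith
  have h2 : 0 < (1 / ((j : ℝ) + 2)) := by positivity
  nlinarith

lemma uu_inj : Function.Injective uu := by
  intro j k h
  have e : ∀ j : ℕ, (uu j) 1 / (1 + (uu j) 0) = 1 / ((j : ℝ) + 2) := by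
    intro j
    simp only [uu, PiLp.toLp_apply, Matrix.cons_val_zero, Matrix.cons_val_one]
    have : (1 + (1 / ((j : ℝ) + 2)) ^ 2) ≠ 0 := by positivity
    field_simp
    ring
  have h1 := e j
  rw [h, e k] at h1
  have h2 : ((k : ℝ) + 2) = (j : ℝ) + 2 := by
    have := congrArg (fun x : ℝ => x⁻¹) h1
    simpa using this
  have h3 : (k : ℝ) = j := by linarith
  exact (Nat.cast_injective h3).symm

lemma zero_not_unit : (0 : E2) ∉ unit := by
  rw [EuclideanGeometry.mem_sphere]
  simp [unit]

/-- the points on the circle -/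
def UU (n : ℕ) : Finset E2 := (range (n - 1 - (n - 1) / 2)).image uu ∪ (range ((n - 1) / 2)).image (fun j => - uu j)

lemma UU_unit {n : ℕ} {x : E2} (hx : x ∈ UU n) : x ∈ unit := by
  unfold UU at hx
  rw [mem_union, mem_image, mem_image] at hx
  rcases hx with ⟨j, _, rfl⟩ | ⟨j, _, rfl⟩
  · exact uu_mem j
  · exact neg_mem (uu_mem j)

lemma card_UU (n : ℕ) : (UU n).card = n - 1 := by
  unfold UU
  rw [card_union_of_disjoint, card_image_of_injective _ uu_inj, card_image_of_injective, card_range,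
    card_range]
  · omega
  · intro j k h
    exact uu_inj (neg_injective h)
  · rw [disjoint_left]
    intro x hx hy
    rw [mem_image] at hx hy
    obtain ⟨j, _, rfl⟩ := hx
    obtain ⟨k, _, h⟩ := hy
    have h1 := uu_pos j
    have h2 := uu_pos k
    rw [← h] at h1
    simp only [PiLp.neg_apply] at h1
    linarith

/-- the extremal set -/
def PP (n : ℕ) : Finset E2 := insert 0 (UU n)

lemma zero_not_UU (n : ℕ) : (0 : E2) ∉ UU n := fun h => zero_not_unit (UU_unit h)

lemma card_PP {n : ℕ} (hn : 1 ≤ n) : (PP n).card = n := by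
  unfold PP
  rw [card_insert_of_notMem (zero_not_UU n), card_UU]
  omega

lemma exists_three {n : ℕ} (hn : 4 ≤ n) : ∃ a ∈ UU n, ∃ b ∈ UU n, ∃ c ∈ UU n, a ≠ b ∧ a ≠ c ∧ b ≠ c := by
  have : 2 < (UU n).card := by rw [card_UU]; omega
  rw [two_lt_card] at this
  obtain ⟨a, ha, b, hb, c, hc, h1, h2, h3⟩ := this
  exact ⟨a, ha, b, hb, c, hc, h1, h2, h3⟩

lemma PP_admissible {n : ℕ} (hn : 4 ≤ n) : Admissible (PP n) := by
  obtain ⟨a, ha, b, hb, c, hc, h1, h2, h3⟩ := exists_three hn
  have ha' : a ∈ PP n := mem_insert_of_mem ha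
  have hb' : b ∈ PP n := mem_insert_of_mem hb
  have hc' : c ∈ PP n := mem_insert_of_mem hc
  constructor
  · intro h
    have hcr := cr_ne_zero h1 h2 h3 (UU_unit ha) (UU_unit hb) (UU_unit hc)
    apply hcr
    rw [collinear_iff_of_mem (p₀ := a) (by exact_mod_cast ha')] at h
    obtain ⟨v, hv⟩ := h
    obtain ⟨s, hs⟩ := hv b (by exact_mod_cast hb')
    obtain ⟨t, ht⟩ := hv c (by exact_mod_cast hc')
    rw [hs, ht]
    simp only [cr, phi, vadd_eq_add, PiLp.add_apply, PiLp.smul_apply, smul_eq_mul]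
    ring
  · rintro ⟨o, r, h⟩
    have hs : (⟨o, r⟩ : EuclideanGeometry.Sphere E2) = unit := by
      apply sphere_eq h1 h2 h3 _ _ _ (UU_unit ha) (UU_unit hb) (UU_unit hc)
      · exact EuclideanGeometry.mem_sphere.2 (h a (by exact_mod_cast ha'))
      · exact EuclideanGeometry.mem_sphere.2 (h b (by exact_mod_cast hb'))
      · exact EuclideanGeometry.mem_sphere.2 (h c (by exact_mod_cast hc'))
    apply zero_not_unit
    rw [← hs]
    exact EuclideanGeometry.mem_sphere.2 (h 0 (by simp [PP]))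

/-- the antipodal pairs -/
def AP (n : ℕ) : Finset (Finset E2) := (range ((n - 1) / 2)).image (fun j => {uu j, - uu j})

lemma uu_ne_neg (j k : ℕ) : uu j ≠ - uu k := by
  intro h
  have h1 := uu_pos j
  have h2 := uu_pos k
  rw [h] at h1
  simp only [PiLp.neg_apply] at h1
  linarith

lemma card_AP (n : ℕ) : (AP n).card = (n - 1) / 2 := by
  unfold AP
  rw [card_image_of_injective, card_range]
  intro j k h
  simp only at h
  have h1 : uu j ∈ ({uu k, - uu k} : Finset E2) := by rw [← h]; simp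
  rw [mem_insert, mem_singleton] at h1
  rcases h1 with h1 | h1
  · exact uu_inj h1
  · exact absurd h1 (uu_ne_neg j k)

lemma AP_sub (n : ℕ) : AP n ⊆ (UU n).powersetCard 2 := by
  intro p hp
  unfold AP at hp
  rw [mem_image] at hp
  obtain ⟨j, hj, rfl⟩ := hp
  rw [mem_range] at hj
  rw [mem_powersetCard]
  constructor
  · intro x hx
    rw [mem_insert, mem_singleton] at hx
    unfold UU
    rw [mem_union, mem_image, mem_image]
    rcases hx with rfl | rfl
    · exact Or.inl ⟨j, by rw [mem_range]; omega, rfl⟩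
    · exact Or.inr ⟨j, by rw [mem_range]; omega, rfl⟩
  · exact card_pair (uu_ne_neg j j)

/-- an antipodal pair and the centre lie on no common circle -/
lemma no_anti {s : EuclideanGeometry.Sphere E2} {x : E2} (hx : x ≠ 0) (h0 : (0 : E2) ∈ s) (h1 : x ∈ s)
    (h2 : -x ∈ s) : False := by
  have hxn : x ≠ -x := by
    intro h
    apply hx
    have : (2 : ℝ) • x = 0 := by
      rw [two_smul]
      nth_rewrite 1 [h]
      simp
    simpa using this
  apply cr_ne_zero hxn hx (fun h => hx (neg_eq_zero.1 h)) h1 h2 h0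
  simp only [cr, phi, PiLp.neg_apply, PiLp.zero_apply]
  ring

lemma upper {n : ℕ} (hn : 4 ≤ n) : (circles (PP n)).ncard ≤ 1 + ((n - 1).choose 2 - (n - 1) / 2) := by
  have h1 : (circles (PP n)) ⊆ insert unit (circles (PP n) \ {unit}) := by
    intro s hs
    by_cases h : s = unit
    · exact Or.inl h
    · exact Or.inr ⟨hs, h⟩
  have hfin : (circles (PP n) \ {unit}).ncard ≤ (((UU n).powersetCard 2) \ AP n).card ∧
      (circles (PP n) \ {unit}).Finite := by
    have hk : ∀ s ∈ circles (PP n) \ {unit}, ∃ a ∈ UU n, ∃ b ∈ UU n, a ≠ b ∧ (0 : E2) ∈ s ∧ a ∈ s ∧ b ∈ s ∧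
        (UU n).filter (fun x => x ∈ s) = {a, b} := by
      rintro s ⟨⟨a, ha, b, hb, c, hc, hab, hac, hbc, has, hbs, hcs⟩, hne⟩
      have hne' : s ≠ unit := hne
      have key : ∀ a ∈ UU n, ∀ b ∈ UU n, a ≠ b → a ∈ s → b ∈ s → (UU n).filter (fun x => x ∈ s) = {a, b} := by
        intro a ha b hb hab has hbs
        ext x
        rw [mem_filter, mem_insert, mem_singleton]
        constructor
        · rintro ⟨hx, hxs⟩
          by_contra hcon
          push Not at hcon
          exact hne' (sphere_eq hab (Ne.symm hcon.1) (Ne.symm hcon.2) has hbs hxs (UU_unit ha)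
            (UU_unit hb) (UU_unit hx))
        · rintro (rfl | rfl)
          · exact ⟨ha, has⟩
          · exact ⟨hb, hbs⟩
      unfold PP at ha hb hc
      rw [mem_insert] at ha hb hc
      rcases ha with rfl | ha
      · rcases hb with rfl | hb
        · exact absurd rfl hab
        rcases hc with rfl | hc
        · exact absurd rfl hac
        exact ⟨b, hb, c, hc, hbc, has, hbs, hcs, key b hb c hc hbc hbs hcs⟩
      · rcases hb with rfl | hb
        · rcases hc with rfl | hc
          · exact absurd rfl hbc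
          exact ⟨a, ha, c, hc, hac, hbs, has, hcs, key a ha c hc hac has hcs⟩
        rcases hc with rfl | hc
        · exact ⟨a, ha, b, hb, hab, hcs, has, hbs, key a ha b hb hab has hbs⟩
        exact absurd (sphere_eq hab hac hbc has hbs hcs (UU_unit ha) (UU_unit hb) (UU_unit hc)) hne'
    have hmaps : ∀ s ∈ circles (PP n) \ {unit}, (UU n).filter (fun x => x ∈ s) ∈
        (↑(((UU n).powersetCard 2) \ AP n) : Set (Finset E2)) := by
      intro s hs
      obtain ⟨a, ha, b, hb, hab, h0, has, hbs, e⟩ := hk s hs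
      rw [mem_coe, mem_sdiff, mem_powersetCard]
      refine ⟨⟨filter_subset _ _, by rw [e]; exact card_pair hab⟩, fun hAP => ?_⟩
      unfold AP at hAP
      rw [mem_image] at hAP
      obtain ⟨j, _, hj⟩ := hAP
      have m1 : uu j ∈ (UU n).filter (fun x => x ∈ s) := by rw [← hj]; simp
      have m2 : - uu j ∈ (UU n).filter (fun x => x ∈ s) := by rw [← hj]; simp
      refine no_anti (x := uu j) ?_ h0 (mem_filter.1 m1).2 (mem_filter.1 m2).2
      intro h
      exact zero_not_unit (h ▸ uu_mem j)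
    have hinj : Set.InjOn (fun s : EuclideanGeometry.Sphere E2 => (UU n).filter (fun x => x ∈ s))
        (circles (PP n) \ {unit}) := by
      intro s hs t ht hst
      obtain ⟨a, ha, b, hb, hab, h0, has, hbs, e⟩ := hk s hs
      obtain ⟨a', ha', b', hb', hab', h0', has', hbs', e'⟩ := hk t ht
      simp only at hst
      have m1 : a ∈ (UU n).filter (fun x => x ∈ t) := by rw [← hst, e]; simp
      have m2 : b ∈ (UU n).filter (fun x => x ∈ t) := by rw [← hst, e]; simp
      have hne0 : ∀ x ∈ UU n, x ≠ 0 := fun x hx h => zero_not_UU n (h ▸ hx)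
      exact sphere_eq hab (hne0 a ha) (hne0 b hb) has hbs h0 (mem_filter.1 m1).2 (mem_filter.1 m2).2 h0'
    constructor
    · rw [← Set.ncard_coe_finset]
      exact Set.ncard_le_ncard_of_injOn _ hmaps hinj (Finset.finite_toSet _)
    · exact Set.Finite.of_injOn (t := (↑(((UU n).powersetCard 2) \ AP n) : Set (Finset E2))) hmaps hinj
        (Finset.finite_toSet _)
  have hcard : (((UU n).powersetCard 2) \ AP n).card = (n - 1).choose 2 - (n - 1) / 2 := by
    rw [card_sdiff_of_subset (AP_sub n), card_powersetCard, card_UU, card_AP]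
  calc (circles (PP n)).ncard ≤ (insert unit (circles (PP n) \ {unit})).ncard :=
        Set.ncard_le_ncard h1 (hfin.2.insert _)
    _ ≤ (circles (PP n) \ {unit}).ncard + 1 := Set.ncard_insert_le _ _
    _ ≤ 1 + ((n - 1).choose 2 - (n - 1) / 2) := by
        rw [← hcard]
        have := hfin.1
        omega

lemma choose_le {n : ℕ} (_ : 4 ≤ n) : (n - 1) / 2 ≤ (n - 1).choose 2 := by
  rw [Nat.choose_two_right]
  apply Nat.div_le_div_right
  calc n - 1 = (n - 1) * 1 := by ring
    _ ≤ (n - 1) * (n - 1 - 1) := Nat.mul_le_mul_left _ (by omega)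

/-- the main theorem -/
theorem main (n : ℕ) (h : n = 4 ∨ n = 5 ∨ 15 ≤ n) :
    IsLeast {k : ℕ | ∃ P : Finset E2, P.card = n ∧ Admissible P ∧ (circles P).ncard = k}
      ((n - 1).choose 2 + 1 - (n - 1) / 2) := by
  have hn : 4 ≤ n := by omega
  have hlow : ∀ P : Finset E2, P.card = n → Admissible P →
      (n - 1).choose 2 + 1 - (n - 1) / 2 ≤ (circles P).ncard := by
    intro P hP hA
    rw [ncard_circles]
    have hc : (P.image phi).card = n := by rw [card_image_of_injective _ phi_inj, hP]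
    have := lower (not_block hA) (by rw [hc]; exact h)
    rw [hc] at this
    rw [Nat.choose_two_right]
    exact this
  constructor
  · refine ⟨PP n, card_PP (by omega), PP_admissible hn, ?_⟩
    apply le_antisymm
    · refine (upper hn).trans ?_
      have := choose_le hn
      omega
    · exact hlow _ (card_PP (by omega)) (PP_admissible hn)
  · rintro k ⟨P, hP, hA, rfl⟩
    exact hlow P hP hA

end

end Pool.Agent.W2helper83.Cir
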