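import Pool.Agent.Helper543.Melchior

/-!
# Circles and lines through points of the plane: four points on a common circle or line
-/

set_option autoImplicit false

namespace Pool.Agent.W2helper83.Cir

open Finset Pool.Agent.Helper543.Melchior

noncomputable section

open scoped Classical

/-- squared length -/
def nn (u : Pt) : ℝ := u.1 ^ 2 + u.2 ^ 2

/-- vanishes iff the four points lie on a common circle or line (for distinct points) -/
def D (a b c d : Pt) : ℝ :=
  nn (c - d) * ((a.1 - d.1) * (b.2 - d.2) - (a.2 - d.2) * (b.1 - d.1)) +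
  nn (b - d) * ((c.1 - d.1) * (a.2 - d.2) - (c.2 - d.2) * (a.1 - d.1)) +
  nn (a - d) * ((b.1 - d.1) * (c.2 - d.2) - (b.2 - d.2) * (c.1 - d.1))

lemma D_swap (a b c d : Pt) : D b a c d = - D a b c d := by simp [D, nn]; ring
lemma D_swap' (a b c d : Pt) : D a c b d = - D a b c d := by simp [D, nn]; ring
lemma D_swap'' (a b c d : Pt) : D a b d c = - D a b c d := by simp [D, nn]; ring
lemma D_self1 (a b c : Pt) : D a b c a = 0 := by simp [D, nn]
lemma D_self2 (a b c : Pt) : D a b c b = 0 := by simp [D, nn]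
lemma D_self3 (a b c : Pt) : D a b c c = 0 := by simp [D, nn]

lemma nn_pos {x p : Pt} (h : x ≠ p) : 0 < nn (x - p) := by
  unfold nn
  by_contra hcon
  have h1 : (x - p).1 ^ 2 = 0 := by nlinarith [sq_nonneg (x - p).1, sq_nonneg (x - p).2]
  have h2 : (x - p).2 ^ 2 = 0 := by nlinarith [sq_nonneg (x - p).1, sq_nonneg (x - p).2]
  apply h
  rw [← sub_eq_zero]
  ext
  · exact pow_eq_zero_iff (n := 2) (by norm_num) |>.1 h1
  · exact pow_eq_zero_iff (n := 2) (by norm_num) |>.1 h2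

/-- inversion with centre `p` -/
def inv (p x : Pt) : Pt := ((x.1 - p.1) / nn (x - p), (x.2 - p.2) / nn (x - p))

lemma inv_cr {p a b c : Pt} (ha : a ≠ p) (hb : b ≠ p) (hc : c ≠ p) :
    cr (inv p a) (inv p b) (inv p c) = D a b c p / (nn (a - p) * nn (b - p) * nn (c - p)) := by
  have h1 := (nn_pos ha).ne'
  have h2 := (nn_pos hb).ne'
  have h3 := (nn_pos hc).ne'
  simp only [cr, inv, D]
  field_simp
  ring

lemma inv_cr_eq_zero {p a b c : Pt} (ha : a ≠ p) (hb : b ≠ p) (hc : c ≠ p) :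
    cr (inv p a) (inv p b) (inv p c) = 0 ↔ D a b c p = 0 := by
  rw [inv_cr ha hb hc, div_eq_zero_iff]
  have h1 := nn_pos ha
  have h2 := nn_pos hb
  have h3 := nn_pos hc
  have : nn (a - p) * nn (b - p) * nn (c - p) ≠ 0 := by positivity
  simp [this]

lemma inv_cr0 {p a b : Pt} (ha : a ≠ p) (hb : b ≠ p) :
    cr (inv p a) (inv p b) 0 = 0 ↔ cr p a b = 0 := by
  have h1 := (nn_pos ha).ne'
  have h2 := (nn_pos hb).ne'
  have : cr (inv p a) (inv p b) 0 = cr p a b / (nn (a - p) * nn (b - p)) := by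
    simp only [cr, inv, Prod.fst_zero, Prod.snd_zero]
    field_simp
    ring
  rw [this, div_eq_zero_iff]
  simp [h1, h2]

lemma inv_ne_zero {p a : Pt} (ha : a ≠ p) : inv p a ≠ 0 := by
  intro h
  have h1 := (nn_pos ha).ne'
  have e1 : (a.1 - p.1) / nn (a - p) = 0 := congrArg Prod.fst h
  have e2 : (a.2 - p.2) / nn (a - p) = 0 := congrArg Prod.snd h
  rw [div_eq_zero_iff] at e1 e2
  simp only [h1, or_false] at e1 e2
  apply ha
  ext <;> linarith

lemma inv_inj {p a b : Pt} (ha : a ≠ p) (hb : b ≠ p) (h : inv p a = inv p b) : a = b := by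
  have h1 := nn_pos ha
  have h2 := nn_pos hb
  have e1 : (a.1 - p.1) / nn (a - p) = (b.1 - p.1) / nn (b - p) := congrArg Prod.fst h
  have e2 : (a.2 - p.2) / nn (a - p) = (b.2 - p.2) / nn (b - p) := congrArg Prod.snd h
  rw [div_eq_div_iff h1.ne' h2.ne'] at e1 e2
  -- the squared lengths agree
  have e3 : nn (a - p) * nn (b - p) * (nn (b - p) - nn (a - p)) = 0 := by
    have k1 : nn (a - p) = (a.1 - p.1) ^ 2 + (a.2 - p.2) ^ 2 := rfl
    have k2 : nn (b - p) = (b.1 - p.1) ^ 2 + (b.2 - p.2) ^ 2 := rfl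
    have q1 : ((a.1 - p.1) * nn (b - p)) ^ 2 + ((a.2 - p.2) * nn (b - p)) ^ 2 =
        ((b.1 - p.1) * nn (a - p)) ^ 2 + ((b.2 - p.2) * nn (a - p)) ^ 2 := by rw [e1, e2]
    have q2 : nn (a - p) * nn (b - p) ^ 2 = nn (b - p) * nn (a - p) ^ 2 := by
      calc nn (a - p) * nn (b - p) ^ 2 = ((a.1 - p.1) * nn (b - p)) ^ 2 + ((a.2 - p.2) * nn (b - p)) ^ 2 := by
            rw [k1]; ring
        _ = ((b.1 - p.1) * nn (a - p)) ^ 2 + ((b.2 - p.2) * nn (a - p)) ^ 2 := q1
        _ = nn (b - p) * nn (a - p) ^ 2 := by rw [k2]; ring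
    linear_combination q2
  have e4 : nn (b - p) = nn (a - p) := by
    rcases mul_eq_zero.1 e3 with h | h
    · exact absurd h (by positivity)
    · linarith
  rw [e4] at e1 e2
  have f1 := mul_right_cancel₀ h1.ne' e1
  have f2 := mul_right_cancel₀ h1.ne' e2
  ext <;> linarith

/-- four images of points on a curve through the centre -/
lemma cr_trans {u v x y z : Pt} (huv : u ≠ v) (hx : cr u v x = 0) (hy : cr u v y = 0) (hz : cr u v z = 0) :
    cr x y z = 0 := by
  obtain ⟨s, hs1, hs2⟩ := exists_param huv hx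
  obtain ⟨t, ht1, ht2⟩ := exists_param huv hy
  rw [cr_param hs1 hs2 ht1 ht2 z, hz, mul_zero]

/-- four collinear points -/
lemma D_of_cr {u v x y z w : Pt} (huv : u ≠ v) (hx : cr u v x = 0) (hy : cr u v y = 0) (hz : cr u v z = 0)
    (hw : cr u v w = 0) : D x y z w = 0 := by
  have h1 := cr_trans huv hx hy hw
  have h2 := cr_trans huv hy hz hw
  have h3 := cr_trans huv hz hx hw
  have e1 : (x.1 - w.1) * (y.2 - w.2) - (x.2 - w.2) * (y.1 - w.1) = cr x y w := by simp only [cr]; ring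
  have e2 : (y.1 - w.1) * (z.2 - w.2) - (y.2 - w.2) * (z.1 - w.1) = cr y z w := by simp only [cr]; ring
  have e3 : (z.1 - w.1) * (x.2 - w.2) - (z.2 - w.2) * (x.1 - w.1) = cr z x w := by simp only [cr]; ring
  unfold D
  rw [e1, e2, e3, h1, h2, h3]
  ring

/-- the condition is invariant under inversions -/
lemma D_inv {a x y z w : Pt} (hx : x ≠ a) (hy : y ≠ a) (hz : z ≠ a) (hw : w ≠ a)
    (h : D (inv a x) (inv a y) (inv a z) (inv a w) = 0) : D x y z w = 0 := by
  have k : ∀ u v : Pt, u ≠ a → v ≠ a →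
      nn (inv a u - inv a v) * (nn (u - a) * nn (v - a)) = nn (u - v) := by
    intro u v hu hv
    have h1 := (nn_pos hu).ne'
    have h2 := (nn_pos hv).ne'
    have e1 : nn (u - a) = (u.1 - a.1) ^ 2 + (u.2 - a.2) ^ 2 := rfl
    have e2 : nn (v - a) = (v.1 - a.1) ^ 2 + (v.2 - a.2) ^ 2 := rfl
    have e3 : nn (u - v) = (u.1 - v.1) ^ 2 + (u.2 - v.2) ^ 2 := rfl
    have e4 : nn (inv a u - inv a v) = ((u.1 - a.1) / nn (u - a) - (v.1 - a.1) / nn (v - a)) ^ 2 +
      ((u.2 - a.2) / nn (u - a) - (v.2 - a.2) / nn (v - a)) ^ 2 := rfl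
    rw [e4, e3]
    have : ((u.1 - a.1) / nn (u - a) - (v.1 - a.1) / nn (v - a)) ^ 2 +
        ((u.2 - a.2) / nn (u - a) - (v.2 - a.2) / nn (v - a)) ^ 2 =
        ((u.1 - a.1) ^ 2 + (u.2 - a.2) ^ 2) / nn (u - a) ^ 2 +
        ((v.1 - a.1) ^ 2 + (v.2 - a.2) ^ 2) / nn (v - a) ^ 2 -
        2 * ((u.1 - a.1) * (v.1 - a.1) + (u.2 - a.2) * (v.2 - a.2)) / (nn (u - a) * nn (v - a)) := by
      field_simp
      ring
    rw [this, ← e1, ← e2]
    field_simp
    rw [e1, e2]
    ring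
  have c : ∀ u v t : Pt, u ≠ a → v ≠ a → t ≠ a →
      cr (inv a u) (inv a v) (inv a t) * (nn (u - a) * nn (v - a) * nn (t - a)) = D u v t a := by
    intro u v t hu hv ht
    have h1 := (nn_pos hu).ne'
    have h2 := (nn_pos hv).ne'
    have h3 := (nn_pos ht).ne'
    rw [inv_cr hu hv ht]
    field_simp
  have dd : ∀ x y z w : Pt, D x y z w = nn (z - w) * cr x y w + nn (y - w) * cr z x w + nn (x - w) * cr y z w := by
    intro x y z w
    simp only [D, cr]
    ring
  have key : D (inv a x) (inv a y) (inv a z) (inv a w) *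
      (nn (x - a) * nn (y - a) * nn (z - a) * nn (w - a)) * nn (w - a) = - nn (w - a) * D x y z w := by
    rw [dd]
    calc (nn (inv a z - inv a w) * cr (inv a x) (inv a y) (inv a w) +
          nn (inv a y - inv a w) * cr (inv a z) (inv a x) (inv a w) +
          nn (inv a x - inv a w) * cr (inv a y) (inv a z) (inv a w)) *
          (nn (x - a) * nn (y - a) * nn (z - a) * nn (w - a)) * nn (w - a)
        = (nn (inv a z - inv a w) * (nn (z - a) * nn (w - a))) *
            (cr (inv a x) (inv a y) (inv a w) * (nn (x - a) * nn (y - a) * nn (w - a))) +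
          (nn (inv a y - inv a w) * (nn (y - a) * nn (w - a))) *
            (cr (inv a z) (inv a x) (inv a w) * (nn (z - a) * nn (x - a) * nn (w - a))) +
          (nn (inv a x - inv a w) * (nn (x - a) * nn (w - a))) *
            (cr (inv a y) (inv a z) (inv a w) * (nn (y - a) * nn (z - a) * nn (w - a))) := by ring
      _ = nn (z - w) * D x y w a + nn (y - w) * D z x w a + nn (x - w) * D y z w a := by
          rw [k z w hz hw, k y w hy hw, k x w hx hw, c x y w hx hy hw, c z x w hz hx hw, c y z w hy hz hw]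
      _ = - nn (w - a) * D x y z w := by
          simp only [D, nn, Prod.fst_sub, Prod.snd_sub]
          ring
  rw [h, zero_mul, zero_mul] at key
  have := nn_pos hw
  have h5 : nn (w - a) * D x y z w = 0 := by linarith
  rcases mul_eq_zero.1 h5 with h6 | h6
  · exact absurd h6 this.ne'
  · exact h6

lemma D_cyc (a b c d : Pt) : D b c d a = - D a b c d := by simp [D, nn]; ring
lemma D_eq12 (a c d : Pt) : D a a c d = 0 := by simp [D, nn]; ring
lemma D_eq13 (a b d : Pt) : D a b a d = 0 := by simp [D, nn]; ring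
lemma D_eq23 (a b d : Pt) : D a b b d = 0 := by simp [D, nn]; ring

lemma cyc_iff {a b c d : Pt} : D a b c d = 0 ↔ D b c d a = 0 := by
  rw [D_cyc a b c d]; constructor <;> intro h <;> linarith

lemma on2 {a b c x y w : Pt} (hab : a ≠ b) (hac : a ≠ c) (hbc : b ≠ c) (hx : D a b c x = 0)
    (hy : D a b c y = 0) (hw : D a b c w = 0) : D a x y w = 0 := by
  by_cases hxa : x = a
  · subst hxa; exact D_eq12 _ _ _
  by_cases hya : y = a
  · subst hya; exact D_eq13 _ _ _
  by_cases hwa : w = a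
  · subst hwa; exact D_self1 _ _ _
  rw [cyc_iff] at hx hy hw ⊢
  have h1 := (inv_cr_eq_zero hab.symm hac.symm hxa).2 hx
  have h2 := (inv_cr_eq_zero hab.symm hac.symm hya).2 hy
  have h3 := (inv_cr_eq_zero hab.symm hac.symm hwa).2 hw
  have hne : inv a b ≠ inv a c := fun h => hbc (inv_inj hab.symm hac.symm h)
  exact (inv_cr_eq_zero hxa hya hwa).1 (cr_trans hne h1 h2 h3)

lemma on3 {a b c x y z w : Pt} (hab : a ≠ b) (hac : a ≠ c) (hbc : b ≠ c) (hx : D a b c x = 0)
    (hy : D a b c y = 0) (hz : D a b c z = 0) (hw : D a b c w = 0) : D x y z w = 0 := by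
  by_cases hxa : x = a
  · subst hxa; exact on2 hab hac hbc hy hz hw
  by_cases hya : y = a
  · subst hya
    rw [← neg_eq_zero, ← D_swap]
    exact on2 hab hac hbc hx hz hw
  by_cases hza : z = a
  · subst hza
    have := on2 hab hac hbc hx hy hw
    rw [← neg_eq_zero, ← D_swap', D_swap]
    rw [this, neg_zero]
  by_cases hwa : w = a
  · subst hwa
    have := on2 hab hac hbc hx hy hz
    rw [cyc_iff] at this
    exact this
  rw [cyc_iff] at hx hy hz hw
  have h1 := (inv_cr_eq_zero hab.symm hac.symm hxa).2 hx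
  have h2 := (inv_cr_eq_zero hab.symm hac.symm hya).2 hy
  have h3 := (inv_cr_eq_zero hab.symm hac.symm hza).2 hz
  have h4 := (inv_cr_eq_zero hab.symm hac.symm hwa).2 hw
  have hne : inv a b ≠ inv a c := fun h => hbc (inv_inj hab.symm hac.symm h)
  exact D_inv hxa hya hza hwa (D_of_cr hne h1 h2 h3 h4)

/-- three distinct points of a curve determine it -/
lemma D_iff {a b c x y z : Pt} (hab : a ≠ b) (hac : a ≠ c) (hbc : b ≠ c) (hxy : x ≠ y) (hxz : x ≠ z)
    (hyz : y ≠ z) (hx : D a b c x = 0) (hy : D a b c y = 0) (hz : D a b c z = 0) (w : Pt) :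
    D a b c w = 0 ↔ D x y z w = 0 := by
  constructor
  · intro hw
    exact on3 hab hac hbc hx hy hz hw
  · intro hw
    exact on3 hxy hxz hyz (on3 hab hac hbc hx hy hz (D_self1 a b c))
      (on3 hab hac hbc hx hy hz (D_self2 a b c)) (on3 hab hac hbc hx hy hz (D_self3 a b c)) hw

/-- a collinear triple -/
lemma D_line {a b c : Pt} (hab : a ≠ b) (hac : a ≠ c) (hbc : b ≠ c) (h : cr a b c = 0) (w : Pt) :
    D a b c w = 0 ↔ cr a b w = 0 := by
  constructor
  · intro hw
    by_cases hwc : w = c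
    · subst hwc; exact h
    obtain ⟨s, hs1, hs2⟩ := exists_param hab h
    have e1 : c.1 = a.1 + s * (b.1 - a.1) := by linarith
    have e2 : c.2 = a.2 + s * (b.2 - a.2) := by linarith
    have hs0 : s ≠ 0 := by
      rintro rfl
      apply hac
      ext <;> linarith
    have hs1' : s ≠ 1 := by
      rintro rfl
      apply hbc
      ext <;> linarith
    have hnn := nn_pos hab.symm
    have key : D a b c w = s * (s - 1) * nn (b - a) * cr a b w := by
      simp only [D, cr, nn, Prod.fst_sub, Prod.snd_sub, e1, e2]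
      ring
    rw [hw] at key
    rcases mul_eq_zero.1 key.symm with h1 | h1
    · rcases mul_eq_zero.1 h1 with h2 | h2
      · rcases mul_eq_zero.1 h2 with h3 | h3
        · exact absurd h3 hs0
        · exact absurd h3 (sub_ne_zero.2 hs1')
      · exact absurd h2 hnn.ne'
    · exact h1
  · intro hw
    exact D_of_cr hab (cr_self_left a b) (cr_self_right a b) h hw

/-- the circumcircle -/
lemma exists_circle {a b c : Pt} (h : cr a b c ≠ 0) : ∃ (o : Pt) (ρ : ℝ), 0 ≤ ρ ∧ ∀ x, D a b c x = 0 ↔ nn (x - o) = ρ := by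
  refine ⟨((nn a * (b.2 - c.2) + nn b * (c.2 - a.2) + nn c * (a.2 - b.2)) / (2 * cr a b c),
    (nn a * (c.1 - b.1) + nn b * (a.1 - c.1) + nn c * (b.1 - a.1)) / (2 * cr a b c)),
    nn (a - ((nn a * (b.2 - c.2) + nn b * (c.2 - a.2) + nn c * (a.2 - b.2)) / (2 * cr a b c),
    (nn a * (c.1 - b.1) + nn b * (a.1 - c.1) + nn c * (b.1 - a.1)) / (2 * cr a b c))), ?_, ?_⟩
  · unfold nn; positivity
  · intro x
    have key : D a b c x = - (cr a b c) * (nn (x - ((nn a * (b.2 - c.2) + nn b * (c.2 - a.2) + nn c * (a.2 - b.2)) / (2 * cr a b c),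
    (nn a * (c.1 - b.1) + nn b * (a.1 - c.1) + nn c * (b.1 - a.1)) / (2 * cr a b c))) -
      nn (a - ((nn a * (b.2 - c.2) + nn b * (c.2 - a.2) + nn c * (a.2 - b.2)) / (2 * cr a b c),
    (nn a * (c.1 - b.1) + nn b * (a.1 - c.1) + nn c * (b.1 - a.1)) / (2 * cr a b c)))) := by
      have e : ∀ u o : Pt, nn (u - o) = nn u - 2 * (u.1 * o.1 + u.2 * o.2) + nn o := by
        intro u o; simp only [nn, Prod.fst_sub, Prod.snd_sub]; ring
      rw [e, e]
      field_simp
      simp only [D, nn, cr, Prod.fst_sub, Prod.snd_sub]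
      ring
    rw [key]
    constructor
    · intro h1
      rcases mul_eq_zero.1 h1 with h2 | h2
      · exact absurd (neg_eq_zero.1 h2) h
      · linarith
    · intro h1
      rw [h1]; ring

/-! ### blocks -/

variable (P : Finset Pt)

/-- the points of `P` on the circle or line through `a`, `b`, `c` -/
def blk (a b c : Pt) : Finset Pt := P.filter (fun x => D a b c x = 0)

/-- ordered triples of distinct points -/
def trip : Finset (Pt × Pt × Pt) :=
  (P ×ˢ P ×ˢ P).filter (fun t => t.1 ≠ t.2.1 ∧ t.1 ≠ t.2.2 ∧ t.2.1 ≠ t.2.2)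

/-- the point sets of the circles and lines with at least three points of `P` -/
def blocks : Finset (Finset Pt) := (trip P).image (fun t => blk P t.1 t.2.1 t.2.2)

variable {P}

lemma mem_blk {a b c x : Pt} : x ∈ blk P a b c ↔ x ∈ P ∧ D a b c x = 0 := by simp [blk]

lemma mem_trip {t : Pt × Pt × Pt} : t ∈ trip P ↔ t.1 ∈ P ∧ t.2.1 ∈ P ∧ t.2.2 ∈ P ∧
    t.1 ≠ t.2.1 ∧ t.1 ≠ t.2.2 ∧ t.2.1 ≠ t.2.2 := by
  simp [trip, and_assoc]

lemma blk_mem {a b c : Pt} (ha : a ∈ P) (hb : b ∈ P) (hc : c ∈ P) (hab : a ≠ b) (hac : a ≠ c)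
    (hbc : b ≠ c) : blk P a b c ∈ blocks P := by
  unfold blocks
  rw [mem_image]
  exact ⟨(a, b, c), mem_trip.2 ⟨ha, hb, hc, hab, hac, hbc⟩, rfl⟩

lemma blocks_sub {K : Finset Pt} (hK : K ∈ blocks P) : K ⊆ P := by
  unfold blocks at hK
  rw [mem_image] at hK
  obtain ⟨t, _, rfl⟩ := hK
  exact filter_subset _ _

lemma eq_blk {K : Finset Pt} (hK : K ∈ blocks P) {x y z : Pt} (hx : x ∈ K) (hy : y ∈ K) (hz : z ∈ K)
    (hxy : x ≠ y) (hxz : x ≠ z) (hyz : y ≠ z) : K = blk P x y z := by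
  unfold blocks at hK
  rw [mem_image] at hK
  obtain ⟨⟨a, b, c⟩, ht, rfl⟩ := hK
  obtain ⟨_, _, _, h1, h2, h3⟩ := mem_trip.1 ht
  simp only at hx hy hz h1 h2 h3 ⊢
  rw [mem_blk] at hx hy hz
  ext w
  rw [mem_blk, mem_blk, D_iff h1 h2 h3 hxy hxz hyz hx.2 hy.2 hz.2]

lemma blocks_three {K : Finset Pt} (hK : K ∈ blocks P) :
    ∃ x ∈ K, ∃ y ∈ K, ∃ z ∈ K, x ≠ y ∧ x ≠ z ∧ y ≠ z ∧ K = blk P x y z := by
  have hK' := hK
  unfold blocks at hK
  rw [mem_image] at hK
  obtain ⟨⟨a, b, c⟩, ht, rfl⟩ := hK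
  obtain ⟨ha, hb, hc, h1, h2, h3⟩ := mem_trip.1 ht
  exact ⟨a, mem_blk.2 ⟨ha, D_self1 _ _ _⟩, b, mem_blk.2 ⟨hb, D_self2 _ _ _⟩, c,
    mem_blk.2 ⟨hc, D_self3 _ _ _⟩, h1, h2, h3, rfl⟩

lemma three_le {K : Finset Pt} (hK : K ∈ blocks P) : 3 ≤ K.card := by
  obtain ⟨x, hx, y, hy, z, hz, h1, h2, h3, _⟩ := blocks_three hK
  have : ({x, y, z} : Finset Pt) ⊆ K := by
    intro w hw
    simp only [mem_insert, mem_singleton] at hw
    rcases hw with rfl | rfl | rfl <;> assumption
  have h4 := card_le_card this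
  rwa [card_eq_three.2 ⟨x, y, z, h1, h2, h3, rfl⟩] at h4

/-- two different blocks share at most two points -/
lemma block_eq {K L : Finset Pt} (hK : K ∈ blocks P) (hL : L ∈ blocks P) {x y z : Pt}
    (hxy : x ≠ y) (hxz : x ≠ z) (hyz : y ≠ z) (hx : x ∈ K) (hy : y ∈ K) (hz : z ∈ K)
    (hx' : x ∈ L) (hy' : y ∈ L) (hz' : z ∈ L) : K = L := by
  rw [eq_blk hK hx hy hz hxy hxz hyz, eq_blk hL hx' hy' hz' hxy hxz hyz]

/-- exactly one block through three distinct points -/
lemma filter_three {x y z : Pt} (hx : x ∈ P) (hy : y ∈ P) (hz : z ∈ P) (hxy : x ≠ y) (hxz : x ≠ z)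
    (hyz : y ≠ z) : (blocks P).filter (fun K => x ∈ K ∧ y ∈ K ∧ z ∈ K) = {blk P x y z} := by
  ext K
  rw [mem_filter, mem_singleton]
  constructor
  · rintro ⟨hK, h1, h2, h3⟩
    exact eq_blk hK h1 h2 h3 hxy hxz hyz
  · rintro rfl
    exact ⟨blk_mem hx hy hz hxy hxz hyz, mem_blk.2 ⟨hx, D_self1 _ _ _⟩,
      mem_blk.2 ⟨hy, D_self2 _ _ _⟩, mem_blk.2 ⟨hz, D_self3 _ _ _⟩⟩

/-- blocks on a line -/
def IsL (K : Finset Pt) : Prop := ∀ x ∈ K, ∀ y ∈ K, ∀ z ∈ K, cr x y z = 0

/-- the circle blocks -/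
def circs (P : Finset Pt) : Finset (Finset Pt) := (blocks P).filter (fun K => ¬ IsL K)

/-- the line blocks -/
def lins (P : Finset Pt) : Finset (Finset Pt) := (blocks P).filter (fun K => IsL K)

lemma isL_iff {K : Finset Pt} (hK : K ∈ blocks P) {x y z : Pt} (hx : x ∈ K) (hy : y ∈ K) (hz : z ∈ K)
    (hxy : x ≠ y) (hxz : x ≠ z) (hyz : y ≠ z) : IsL K ↔ cr x y z = 0 := by
  constructor
  · intro h; exact h x hx y hy z hz
  · intro h u hu v hv w hw
    rw [eq_blk hK hx hy hz hxy hxz hyz, mem_blk, D_line hxy hxz hyz h] at hu hv hw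
    exact cr_trans hxy hu.2 hv.2 hw.2

lemma isL_eq {K : Finset Pt} (hK : K ∈ blocks P) (hL : IsL K) {x y : Pt} (hx : x ∈ K) (hy : y ∈ K)
    (hxy : x ≠ y) : K = lineOf P x y := by
  obtain ⟨a, ha, b, hb, c, hc, h1, h2, h3, h4⟩ := blocks_three hK
  -- a third point
  obtain ⟨z, hz, hxz, hyz⟩ : ∃ z ∈ K, x ≠ z ∧ y ≠ z := by
    by_contra hcon
    push Not at hcon
    have e : K ⊆ {x, y} := by
      intro w hw
      rw [mem_insert, mem_singleton]
      by_cases hxw : x = w
      · left; exact hxw.symm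
      · right; exact (hcon w hw hxw).symm
    have := card_le_card e
    have h5 := three_le hK
    have h6 : ({x, y} : Finset Pt).card ≤ 2 := card_le_two
    omega
  have hcr := hL x hx y hy z hz
  ext w
  conv_lhs => rw [eq_blk hK hx hy hz hxy hxz hyz]
  rw [mem_blk, mem_lineOf, D_line hxy hxz hyz hcr]

end

end Pool.Agent.W2helper83.Cir
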