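import Pool.Agent.W2helper83.Cir.Count

/-!
# The lower bound for the number of circles
-/

set_option autoImplicit false

namespace Pool.Agent.W2helper83.Cir

open Finset Pool.Agent.Helper543.Melchior

/-- the number of circles -/
def fm (n : ℕ) : ℕ := (n - 1) * (n - 2) / 2 + 1 - (n - 1) / 2

/-- the first bound suffices -/
def tA (n M : ℤ) (f : ℤ) : Bool :=
  decide (9 * M * (M + 2) * (f - 1) < 3 * (M - 1) * (n * (n - 1) * (n - 2)) +
    (2 * M ^ 2 - 2 * M + 6) * (3 * n) + M * (M + 2) * ((4 - n) * n))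

/-- the second bound suffices -/
def tB (j M : ℤ) (h : ℤ) (f : ℤ) : Bool :=
  decide (2 * f ≤ 2 + M * (M - 1) * j - j * (j + 1) * h)

/-- the certificates for the remaining cases -/
def certs : List (ℕ × ℕ × ℤ × ℤ × ℤ × ℤ × ℤ × ℤ × ℤ × ℤ) :=
  [(15, 6, 60, 9, 6, 1, 10, 6, 6, 7), (15, 7, 45, 7, 4, 1, 8, 4, 5, 5), (16, 7, 8, 1, 1, 0, 1, 1, 1, 1),
   (16, 8, 16, 3, 1, 0, 2, 1, 2, 2), (17, 8, 8, 1, 1, 0, 1, 1, 1, 1), (18, 8, 8, 1, 1, 0, 1, 1, 1, 1),
   (20, 9, 8, 1, 1, 0, 1, 1, 1, 1), (22, 10, 8, 1, 1, 0, 1, 1, 1, 1)]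

/-- check of a certificate -/
def tC (n M : ℕ) (L u2 u1 u0 vo vg wo wg : ℤ) : Bool :=
  decide (0 ≤ vo) && decide (0 ≤ vg) && decide (0 ≤ wo) && decide (0 ≤ wg) && decide (0 ≤ L) &&
  ((List.range 3).all fun i => (List.range (n - M + 1)).all fun s =>
    decide (i + s < 3) || decide (M < i + s) ||
    (decide (u2 * ((i:ℤ) * (i - 1) * s) + u1 * (i * (s * (s - 1))) + u0 * (s * (s - 1) * (s - 2)) +
        (4 - i - s) * (vo * s + vg * i) + (4 - i - s) * (wo * s + wg * i) ≤ L) &&
     decide (u2 * ((i:ℤ) * (i - 1) * s) + u1 * (i * (s * (s - 1))) + u0 * (s * (s - 1) * (s - 2)) +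
        (4 - i - s) * (vo * s + vg * i) - 2 * ((i + s - 2) * (wo * s + wg * i)) ≤ 0))) &&
  decide (L * ((fm n : ℤ) - 1) < u2 * ((M : ℤ) * (M - 1) * (n - M)) +
      u1 * (M * ((n - M) * (n - M - 1))) +
      u0 * ((n - M) * (n - M - 1) * (n - M - 2)) +
      3 * (vo * (n - M) + vg * M) - (4 - M) * (vg * M) +
      (4 - n) * (wo * (n - M) + wg * M) +
      min (L - (4 - M) * (wg * M)) (2 * ((M - 2) * (wg * M))))

lemma certs_ok : ∀ e ∈ certs, tC e.1 e.2.1 e.2.2.1 e.2.2.2.1 e.2.2.2.2.1 e.2.2.2.2.2.1 e.2.2.2.2.2.2.1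
    e.2.2.2.2.2.2.2.1 e.2.2.2.2.2.2.2.2.1 e.2.2.2.2.2.2.2.2.2 = true := by decide

/-- the finite check -/
lemma small_ok : (List.range 45).all (fun a => (List.range (a + 12)).all (fun b =>
    tA ((a + 15 : ℕ) : ℤ) ((b + 3 : ℕ) : ℤ) (fm (a + 15)) ||
    tB ((min (a + 12 - b) (b + 2) : ℕ) : ℤ) ((b + 3 : ℕ) : ℤ) (((b + 3) / 2 : ℕ) : ℤ) (fm (a + 15)) ||
    certs.any (fun e => decide (e.1 = a + 15) && decide (e.2.1 = b + 3)))) = true := by
  decide +kernel

/-- large sets, small blocks -/
lemma bigA {n M : ℤ} (hn : 60 ≤ n) (hM3 : 3 ≤ M) (hM : 2 * M ≤ n) :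
    9 * M * (M + 2) * (n - 2) ^ 2 < 2 * (3 * (M - 1) * (n * (n - 1) * (n - 2)) +
      (2 * M ^ 2 - 2 * M + 6) * (3 * n) + M * (M + 2) * ((4 - n) * n)) := by
  have h1 : 0 ≤ (M - 1) * n * (n + 4) - 2 * (n - 2) * M * (M + 2) := by
    have e : (M - 1) * n * (n + 4) - 2 * (n - 2) * M * (M + 2) =
        (n - 2 * M) * ((n - 2) * M - (n + 4)) := by ring
    rw [e]
    exact mul_nonneg (by linarith) (by nlinarith)
  have h4 : (11 * n ^ 2 - 44 * n + 36) * (n + 4) ≤ 12 * (n - 1) * (n - 2) ^ 2 := by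
    have e : 12 * (n - 1) * (n - 2) ^ 2 - (11 * n ^ 2 - 44 * n + 36) * (n + 4) =
        n ^ 2 * (n - 60) + 236 * n - 192 := by ring
    have : 0 ≤ n ^ 2 * (n - 60) := mul_nonneg (by positivity) (by linarith)
    linarith
  have h5 : 0 < M * (M + 2) := by nlinarith
  have h6 := mul_le_mul_of_nonneg_left h4 h5.le
  have h7 : 0 ≤ (n - 1) * (n - 2) := by nlinarith
  have h8 := mul_le_mul_of_nonneg_left h1 h7
  have h9 : 0 < 12 * n * (M ^ 2 - M + 3) * (n + 4) := by
    have : 0 < M ^ 2 - M + 3 := by nlinarith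
    have h10 : 0 < n := by linarith
    positivity
  have key : (9 * M * (M + 2) * (n - 2) ^ 2) * (n + 4) < (2 * (3 * (M - 1) * (n * (n - 1) * (n - 2)) +
      (2 * M ^ 2 - 2 * M + 6) * (3 * n) + M * (M + 2) * ((4 - n) * n))) * (n + 4) := by
    nlinarith
  exact lt_of_mul_lt_mul_right key (by linarith)

/-- large sets, large blocks -/
lemma bigB {k M : ℤ} (hk : 2 ≤ k) (hkM : k < M) (hM : 30 ≤ M) :
    2 * (M + k - 2) ^ 2 ≤ k * M * (2 * M - k - 3) := by
  rcases lt_or_ge k 9 with h | h
  · interval_cases k <;> nlinarith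
  · have h1 : 9 * M * (M - 2) ≤ k * M * (2 * M - k - 3) := by
      have h2 : 9 * M ≤ k * M := by nlinarith
      have h3 : M - 2 ≤ 2 * M - k - 3 := by linarith
      exact mul_le_mul h2 h3 (by linarith) (by nlinarith)
    have h4 : 2 * (M + k - 2) ^ 2 ≤ 2 * (2 * M - 3) ^ 2 := by
      have : M + k - 2 ≤ 2 * M - 3 := by linarith
      have h5 : 0 ≤ M + k - 2 := by linarith
      nlinarith
    nlinarith

lemma fm_le {n : ℕ} (hn : 3 ≤ n) : 2 * ((fm n : ℤ) - 1) ≤ (n - 2) ^ 2 := by
  have h1 : (n - 1) * (n - 2) / 2 + 1 - (n - 1) / 2 = fm n := rfl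
  obtain ⟨m, rfl⟩ : ∃ m, n = m + 2 := ⟨n - 2, by omega⟩
  have e1 : m + 2 - 1 = m + 1 := by omega
  have e2 : m + 2 - 2 = m := by omega
  rw [e1, e2] at h1
  have h2 : 2 * ((m + 1) * m / 2) = (m + 1) * m := Nat.mul_div_cancel' (by
    have := Nat.even_mul_succ_self m
    rw [mul_comm] at this
    exact this.two_dvd)
  have h3 : m ≤ 2 * ((m + 1) / 2) := by omega
  have h4 : 2 * fm (m + 2) + 2 * ((m + 1) / 2) ≤ (m + 1) * m + 2 := by
    have : (m + 1) / 2 ≤ (m + 1) * m / 2 + 1 := by
      have : m + 1 ≤ (m + 1) * m + 2 := by nlinarith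
      omega
    omega
  have h5 : ((2 * fm (m + 2) + 2 * ((m + 1) / 2) : ℕ) : ℤ) ≤ (((m + 1) * m + 2 : ℕ) : ℤ) := by exact_mod_cast h4
  have h6 : (m : ℤ) ≤ ((2 * ((m + 1) / 2) : ℕ) : ℤ) := by exact_mod_cast h3
  push_cast at h5 h6 ⊢
  nlinarith

/-- **The lower bound.** -/
theorem lower {P : Finset Pt} (hP : P ∉ blocks P) (hcases : P.card = 4 ∨ P.card = 5 ∨ 15 ≤ P.card) :
    fm P.card ≤ (circs P).card := by
  classical
  have h3 : 3 ≤ P.card := by omega
  -- a largest block
  have hne : (blocks P).Nonempty := by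
    obtain ⟨x, hx, y, hy, z, hz, h1, h2, h3⟩ := two_lt_card.1 (by omega : 2 < P.card)
    exact ⟨_, blk_mem hx hy hz h1 h2 h3⟩
  obtain ⟨γ, hγ, hmax⟩ := exists_max_image (blocks P) card hne
  have hM3 := three_le hγ
  have hMn : γ.card < P.card := by
    apply card_lt_card
    refine Finset.ssubset_iff_subset_ne.2 ⟨blocks_sub hγ, ?_⟩
    rintro rfl
    exact hP hγ
  have hA := boundA hP h3 hM3 hmax
  have hB : ∀ j : ℕ, 1 ≤ j → j ≤ P.card - γ.card →
      2 + (γ.card : ℤ) * (γ.card - 1) * j - j * (j + 1) * ((γ.card / 2 : ℕ) : ℤ) ≤ 2 * (circs P).card := by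
    intro j h1 h2
    obtain ⟨Q, hQ, hQj⟩ := exists_subset_card_eq (s := P \ γ) (n := j) (by
      rw [card_sdiff_of_subset (blocks_sub hγ)]; exact h2)
    have := boundB hγ hQ (by omega)
    rwa [hQj] at this
  have goalA : tA P.card γ.card (fm P.card) = true → fm P.card ≤ (circs P).card := by
    intro h
    unfold tA at h
    rw [decide_eq_true_eq] at h
    by_contra hcon
    push Not at hcon
    have h1 : ((circs P).card : ℤ) ≤ fm P.card - 1 := by
      have : (circs P).card + 1 ≤ fm P.card := hcon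
      have : (((circs P).card + 1 : ℕ) : ℤ) ≤ fm P.card := by exact_mod_cast this
      push_cast at this
      linarith
    have hpos : (0:ℤ) ≤ 9 * γ.card * (γ.card + 2) := by positivity
    have := mul_le_mul_of_nonneg_left h1 hpos
    linarith
  have goalB : ∀ j : ℕ, 1 ≤ j → j ≤ P.card - γ.card → tB j γ.card ((γ.card / 2 : ℕ) : ℤ) (fm P.card) = true →
      fm P.card ≤ (circs P).card := by
    intro j h1 h2 h
    unfold tB at h
    rw [decide_eq_true_eq] at h
    have := hB j h1 h2
    have : (2:ℤ) * fm P.card ≤ 2 * (circs P).card := by linarith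
    have : (fm P.card : ℤ) ≤ (circs P).card := by linarith
    exact_mod_cast this
  rcases hcases with h4 | h5 | hn
  · apply goalA
    have : γ.card = 3 := by omega
    rw [h4, this]
    decide
  · have : γ.card = 3 ∨ γ.card = 4 := by omega
    rcases this with h6 | h6
    · apply goalA
      rw [h5, h6]
      decide
    · apply goalB 1 le_rfl (by omega)
      rw [h5, h6]
      decide
  rcases lt_or_ge P.card 60 with h60 | h60
  · -- the finite check
    have := small_ok
    rw [List.all_eq_true] at this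
    have h1 := this (P.card - 15) (List.mem_range.2 (by omega))
    rw [List.all_eq_true] at h1
    have h2 := h1 (γ.card - 3) (List.mem_range.2 (by omega))
    have e1 : P.card - 15 + 15 = P.card := by omega
    have e2 : γ.card - 3 + 3 = γ.card := by omega
    rw [e1, e2] at h2
    rw [Bool.or_eq_true, Bool.or_eq_true] at h2
    rcases h2 with (h2 | h2) | h2
    · exact goalA h2
    · exact goalB _ (by omega) (by omega) h2
    · rw [List.any_eq_true] at h2
      obtain ⟨e, he, h4⟩ := h2
      rw [Bool.and_eq_true, decide_eq_true_eq, decide_eq_true_eq] at h4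
      have hok := certs_ok e he
      obtain ⟨n, M, L, u2, u1, u0, vo, vg, wo, wg⟩ := e
      simp only at h4 hok
      obtain ⟨rfl, rfl⟩ := h4
      unfold tC at hok
      simp only [Bool.and_eq_true, decide_eq_true_eq, List.all_eq_true, List.mem_range,
        Bool.or_eq_true] at hok
      obtain ⟨⟨⟨⟨⟨⟨a1, a2⟩, a3⟩, a4⟩, a5⟩, a6⟩, a7⟩ := hok
      have hC := boundC hP h3 hγ hmax L u2 u1 u0 vo vg wo wg a1 a2 a3 a4
        (by
          intro i s hi h5 h6 h7
          rcases a6 i (by omega) s (by omega) with (h8 | h8) | h8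
          · omega
          · omega
          · exact h8.1)
        (by
          intro i s hi h5 h6 h7
          rcases a6 i (by omega) s (by omega) with (h8 | h8) | h8
          · omega
          · omega
          · exact h8.2)
      by_contra hcon
      push Not at hcon
      have h9 : ((circs P).card : ℤ) ≤ fm P.card - 1 := by
        have : (circs P).card + 1 ≤ fm P.card := hcon
        have : (((circs P).card + 1 : ℕ) : ℤ) ≤ fm P.card := by exact_mod_cast this
        push_cast at this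
        linarith
      have := mul_le_mul_of_nonneg_left h9 a5
      linarith
  · -- large sets
    have hn' : (60:ℤ) ≤ P.card := by exact_mod_cast h60
    have hM3' : (3:ℤ) ≤ γ.card := by exact_mod_cast hM3
    have hf := fm_le h3
    by_cases hsm : 2 * γ.card ≤ P.card
    · have hsm' : 2 * (γ.card : ℤ) ≤ P.card := by exact_mod_cast hsm
      have hb := bigA hn' hM3' hsm'
      apply goalA
      unfold tA
      rw [decide_eq_true_eq]
      have hpos : (0:ℤ) ≤ 9 * γ.card * (γ.card + 2) := by positivity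
      have := mul_le_mul_of_nonneg_left hf hpos
      nlinarith
    · obtain ⟨k, hk⟩ : ∃ k, P.card = γ.card + k := ⟨P.card - γ.card, by omega⟩
      have hk1 : 1 ≤ k := by omega
      have hBk := hB k hk1 (by omega)
      rcases Nat.lt_or_ge k 2 with h2 | h2
      · -- all points but one
        have : k = 1 := by omega
        subst this
        have e : fm P.card = γ.card * (γ.card - 1) / 2 + 1 - γ.card / 2 := by
          unfold fm
          rw [hk]
          have e1 : γ.card + 1 - 1 = γ.card := by omega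
          have e2 : γ.card + 1 - 2 = γ.card - 1 := by omega
          rw [e1, e2]
        have h4 : 2 * (γ.card * (γ.card - 1) / 2) = γ.card * (γ.card - 1) := Nat.mul_div_cancel' (by
          have := Nat.even_mul_pred_self γ.card
          exact this.two_dvd)
        have h5 : ((2 * (γ.card * (γ.card - 1) / 2) : ℕ) : ℤ) = γ.card * (γ.card - 1) := by
          rw [h4, Nat.cast_mul, Nat.cast_sub (by omega)]
          simp
        push_cast at hBk h5
        rw [e]
        omega
      · have hM30 : (30:ℤ) ≤ γ.card := by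
          have : 30 ≤ γ.card := by omega
          exact_mod_cast this
        have hk2 : (2:ℤ) ≤ k := by exact_mod_cast h2
        have hkM : (k:ℤ) < γ.card := by
          have : k < γ.card := by omega
          exact_mod_cast this
        have hb := bigB hk2 hkM hM30
        have hhalf : 2 * ((γ.card / 2 : ℕ) : ℤ) ≤ γ.card := by
          have : 2 * (γ.card / 2) ≤ γ.card := by omega
          exact_mod_cast this
        have hkk : (0:ℤ) ≤ k * (k + 1) := by positivity
        have h5 := mul_le_mul_of_nonneg_left hhalf hkk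
        have hcard : (P.card : ℤ) = γ.card + k := by exact_mod_cast hk
        rw [hcard] at hf
        have h6 : (4:ℤ) * ((fm P.card : ℤ) - 1) ≤ 4 * ((circs P).card - 1) := by nlinarith
        have h7 : (fm P.card : ℤ) ≤ (circs P).card := by linarith
        exact_mod_cast h7

end Pool.Agent.W2helper83.Cir
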