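import Pool.Agent.W2helper83.Cir.Geom

/-!
# Melchior's inequality for the inverted sets
-/

set_option autoImplicit false

namespace Pool.Agent.W2helper83.Cir

open Finset Pool.Agent.Helper543.Melchior

noncomputable section

open scoped Classical

variable {P : Finset Pt}

/-- the inverted set -/
def ivs (P : Finset Pt) (p : Pt) : Finset Pt := (P.erase p).image (inv p)

/-- the line of the inverted set which belongs to a block -/
def ivK (p : Pt) (K : Finset Pt) : Finset Pt := (K.erase p).image (inv p)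

lemma ivK_card {p : Pt} {K : Finset Pt} (hp : p ∈ K) : (ivK p K).card + 1 = K.card := by
  unfold ivK
  rw [card_image_of_injOn, card_erase_add_one hp]
  intro a ha b hb h
  exact inv_inj (ne_of_mem_erase ha) (ne_of_mem_erase hb) h

lemma ivK_inj {p : Pt} {K L : Finset Pt} (hK : p ∈ K) (hL : p ∈ L) (h : ivK p K = ivK p L) : K = L := by
  have key : ∀ K L : Finset Pt, p ∈ L → ivK p K = ivK p L → K ⊆ L := by
    intro K L hL h x hx
    by_cases hxp : x = p
    · subst hxp; exact hL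
    have h1 : inv p x ∈ ivK p K := mem_image_of_mem _ (mem_erase.2 ⟨hxp, hx⟩)
    rw [h] at h1
    unfold ivK at h1
    rw [mem_image] at h1
    obtain ⟨y, hy, hy2⟩ := h1
    have := inv_inj (ne_of_mem_erase hy) hxp hy2
    subst this
    exact mem_of_mem_erase hy
  exact Subset.antisymm (key K L hL h) (key L K hK h.symm)

lemma mem_ivs {p x : Pt} (hxp : x ≠ p) : inv p x ∈ ivs P p ↔ x ∈ P := by
  unfold ivs
  rw [mem_image]
  constructor
  · rintro ⟨y, hy, hy2⟩
    have := inv_inj (ne_of_mem_erase hy) hxp hy2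
    subst this
    exact mem_of_mem_erase hy
  · intro h
    exact ⟨x, mem_erase.2 ⟨hxp, h⟩, rfl⟩

lemma mem_ivK {p x : Pt} {K : Finset Pt} (hxp : x ≠ p) : inv p x ∈ ivK p K ↔ x ∈ K :=
  mem_ivs (P := K) hxp

lemma exists_of_mem_ivs {p u : Pt} (h : u ∈ ivs P p) : ∃ x ∈ P, x ≠ p ∧ inv p x = u := by
  unfold ivs at h
  rw [mem_image] at h
  obtain ⟨x, hx, hx2⟩ := h
  exact ⟨x, mem_of_mem_erase hx, ne_of_mem_erase hx, hx2⟩

/-- two more points of a block through `p` -/
lemma exists_two_ne {K : Finset Pt} (hK : K ∈ blocks P) {p : Pt} :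
    ∃ x ∈ K, ∃ y ∈ K, x ≠ p ∧ y ≠ p ∧ x ≠ y := by
  obtain ⟨x, hx, y, hy, z, hz, h1, h2, h3, _⟩ := blocks_three hK
  by_cases hxp : x = p
  · subst hxp; exact ⟨y, hy, z, hz, h1.symm, h2.symm, h3⟩
  by_cases hyp : y = p
  · subst hyp; exact ⟨x, hx, z, hz, h1, h3.symm, h2⟩
  exact ⟨x, hx, y, hy, hxp, hyp, h1⟩

lemma lines_ivs {p : Pt} (hp : p ∈ P) :
    lines (ivs P p) = ((blocks P).filter (fun K => p ∈ K)).image (ivK p) := by
  have key : ∀ x ∈ P, ∀ y ∈ P, x ≠ p → y ≠ p → x ≠ y →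
      lineOf (ivs P p) (inv p x) (inv p y) = ivK p (blk P x y p) := by
    intro x hx y hy hxp hyp hxy
    ext u
    rw [mem_lineOf]
    constructor
    · rintro ⟨hu, h⟩
      obtain ⟨z, hz, hzp, rfl⟩ := exists_of_mem_ivs hu
      rw [mem_ivK hzp, mem_blk]
      refine ⟨hz, ?_⟩
      rw [inv_cr_eq_zero hxp hyp hzp] at h
      rw [D_swap'', h, neg_zero]
    · intro hu
      unfold ivK at hu
      rw [mem_image] at hu
      obtain ⟨z, hz, rfl⟩ := hu
      have hzp := ne_of_mem_erase hz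
      have h2 := mem_blk.1 (mem_of_mem_erase hz)
      refine ⟨(mem_ivs hzp).2 h2.1, ?_⟩
      rw [inv_cr_eq_zero hxp hyp hzp, D_swap'', h2.2, neg_zero]
  ext L
  unfold lines
  rw [mem_image, mem_image]
  constructor
  · rintro ⟨⟨u, v⟩, huv, rfl⟩
    rw [mem_offDiag] at huv
    obtain ⟨hu, hv, hne⟩ := huv
    simp only at hu hv hne ⊢
    obtain ⟨x, hx, hxp, rfl⟩ := exists_of_mem_ivs hu
    obtain ⟨y, hy, hyp, rfl⟩ := exists_of_mem_ivs hv
    have hxy : x ≠ y := fun h => hne (by rw [h])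
    refine ⟨blk P x y p, mem_filter.2 ⟨blk_mem hx hy hp hxy hxp hyp, mem_blk.2 ⟨hp, D_self3 _ _ _⟩⟩, ?_⟩
    exact (key x hx y hy hxp hyp hxy).symm
  · rintro ⟨K, hK, rfl⟩
    rw [mem_filter] at hK
    obtain ⟨x, hx, y, hy, hxp, hyp, hxy⟩ := exists_two_ne hK.1 (p := p)
    refine ⟨(inv p x, inv p y), mem_offDiag.2 ⟨(mem_ivs hxp).2 (blocks_sub hK.1 hx),
      (mem_ivs hyp).2 (blocks_sub hK.1 hy), fun h => hxy (inv_inj hxp hyp h)⟩, ?_⟩
    simp only
    rw [key x (blocks_sub hK.1 hx) y (blocks_sub hK.1 hy) hxp hyp hxy, eq_blk hK.1 hx hy hK.2 hxy hxp hyp]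

lemma noncoll {p : Pt} (hp : p ∈ P) (hP : P ∉ blocks P) (h3 : 3 ≤ P.card) :
    ∃ a ∈ ivs P p, ∃ b ∈ ivs P p, ∃ c ∈ ivs P p, cr a b c ≠ 0 := by
  have h2 : 1 < (P.erase p).card := by rw [card_erase_of_mem hp]; omega
  obtain ⟨x, hx, y, hy, hxy⟩ := one_lt_card.1 h2
  have hxp := ne_of_mem_erase hx
  have hyp := ne_of_mem_erase hy
  have hx' := mem_of_mem_erase hx
  have hy' := mem_of_mem_erase hy
  by_contra hcon
  push Not at hcon
  apply hP
  have hmem := blk_mem hx' hy' hp hxy hxp hyp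
  have : blk P x y p = P := by
    apply Subset.antisymm (blocks_sub hmem)
    intro z hz
    rw [mem_blk]
    refine ⟨hz, ?_⟩
    by_cases hzp : z = p
    · subst hzp; exact D_self3 _ _ _
    have := hcon _ ((mem_ivs hxp).2 hx') _ ((mem_ivs hyp).2 hy') _ ((mem_ivs hzp).2 hz)
    rw [inv_cr_eq_zero hxp hyp hzp] at this
    rw [D_swap'', this, neg_zero]
  rwa [this] at hmem

lemma mel_int {S : Finset Pt} (hS : ∃ a ∈ S, ∃ b ∈ S, ∃ c ∈ S, cr a b c ≠ 0) :
    (3:ℤ) ≤ ∑ L ∈ lines S, (3 - (L.card : ℤ)) := by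
  have h := melchior hS
  rw [sum_sub_distrib, sum_const, nsmul_eq_mul]
  have h' : ((∑ L ∈ lines S, L.card + 3 : ℕ) : ℤ) ≤ ((3 * (lines S).card : ℕ) : ℤ) := by exact_mod_cast h
  push_cast at h'
  linarith

/-- Melchior's inequality for the inverted set -/
lemma mel1 {p : Pt} (hp : p ∈ P) (hP : P ∉ blocks P) (h3 : 3 ≤ P.card) :
    (3:ℤ) ≤ ∑ K ∈ (blocks P).filter (fun K => p ∈ K), (4 - (K.card : ℤ)) := by
  refine (mel_int (noncoll hp hP h3)).trans (le_of_eq ?_)
  rw [lines_ivs hp, sum_image]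
  · apply sum_congr rfl
    intro K hK
    have := ivK_card (mem_filter.1 hK).2
    have h' : ((ivK p K).card : ℤ) + 1 = K.card := by exact_mod_cast this
    linarith
  · intro K hK L hL h
    exact ivK_inj (mem_filter.1 hK).2 (mem_filter.1 hL).2 h

lemma cr_cyc (a b c : Pt) : cr b c a = cr a b c := by simp only [cr]; ring

/-- the lines through the centre -/
lemma sum_lines_through {p : Pt} (hp : p ∈ P) :
    ∑ l ∈ (lines P).filter (fun l => p ∈ l), ((l.card : ℤ) - 1) = P.card - 1 := by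
  have h1 : (P.erase p) = ((lines P).filter (fun l => p ∈ l)).biUnion (fun l => l.erase p) := by
    ext x
    rw [mem_biUnion]
    constructor
    · intro hx
      have hxp := ne_of_mem_erase hx
      have hx' := mem_of_mem_erase hx
      refine ⟨lineOf P p x, mem_filter.2 ⟨lineOf_mem_lines hp hx' hxp.symm, mem_lineOf.2 ⟨hp, cr_self_left _ _⟩⟩, ?_⟩
      exact mem_erase.2 ⟨hxp, mem_lineOf.2 ⟨hx', cr_self_right _ _⟩⟩
    · rintro ⟨l, hl, hx⟩
      exact mem_erase.2 ⟨ne_of_mem_erase hx, line_subset (mem_filter.1 hl).1 (mem_of_mem_erase hx)⟩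
  have h2 := congrArg card h1
  rw [card_biUnion, card_erase_of_mem hp] at h2
  · have h4 : 1 ≤ P.card := card_pos.2 ⟨p, hp⟩
    have h3 : ((P.card - 1 : ℕ) : ℤ) = ∑ l ∈ (lines P).filter (fun l => p ∈ l), ((l.erase p).card : ℤ) := by
      rw [h2]; push_cast; rfl
    rw [Nat.cast_sub h4, Nat.cast_one] at h3
    rw [h3]
    apply sum_congr rfl
    intro l hl
    rw [card_erase_of_mem (mem_filter.1 hl).2, Nat.cast_sub (card_pos.2 ⟨p, (mem_filter.1 hl).2⟩)]
    simp
  · intro l hl l' hl' hne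
    rw [Function.onFun, disjoint_left]
    intro x hx hx'
    apply hne
    rw [eq_lineOf (mem_filter.1 hl).1 (mem_filter.1 hl).2 (mem_of_mem_erase hx) (ne_of_mem_erase hx).symm,
      eq_lineOf (mem_filter.1 hl').1 (mem_filter.1 hl').2 (mem_of_mem_erase hx') (ne_of_mem_erase hx').symm]

/-- the lines of the inverted set with the centre added -/
lemma lines_ivs0 {p : Pt} (hp : p ∈ P) :
    lines (insert 0 (ivs P p)) = ((circs P).filter (fun K => p ∈ K)).image (ivK p) ∪
      ((lines P).filter (fun l => p ∈ l)).image (fun l => insert 0 (ivK p l)) := by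
  -- the two kinds of lines
  have key0 : ∀ x ∈ P, x ≠ p →
      lineOf (insert 0 (ivs P p)) 0 (inv p x) = insert 0 (ivK p (lineOf P p x)) := by
    intro x hx hxp
    ext u
    rw [mem_lineOf, mem_insert, mem_insert]
    constructor
    · rintro ⟨rfl | hu, h⟩
      · exact Or.inl rfl
      · obtain ⟨z, hz, hzp, rfl⟩ := exists_of_mem_ivs hu
        right
        rw [mem_ivK hzp, mem_lineOf]
        refine ⟨hz, ?_⟩
        rw [← cr_cyc, inv_cr0 hxp hzp] at h
        exact h
    · rintro (rfl | hu)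
      · exact ⟨Or.inl rfl, cr_self_left _ _⟩
      · unfold ivK at hu
        rw [mem_image] at hu
        obtain ⟨z, hz, rfl⟩ := hu
        have hzp := ne_of_mem_erase hz
        have h2 := mem_lineOf.1 (mem_of_mem_erase hz)
        refine ⟨Or.inr ((mem_ivs hzp).2 h2.1), ?_⟩
        rw [← cr_cyc, inv_cr0 hxp hzp]
        exact h2.2
  have key1 : ∀ x ∈ P, ∀ y ∈ P, x ≠ p → y ≠ p → x ≠ y → cr p x y ≠ 0 →
      lineOf (insert 0 (ivs P p)) (inv p x) (inv p y) = ivK p (blk P x y p) := by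
    intro x hx y hy hxp hyp hxy hcr
    ext u
    rw [mem_lineOf, mem_insert]
    constructor
    · rintro ⟨rfl | hu, h⟩
      · rw [inv_cr0 hxp hyp] at h
        exact absurd h hcr
      · obtain ⟨z, hz, hzp, rfl⟩ := exists_of_mem_ivs hu
        rw [mem_ivK hzp, mem_blk]
        refine ⟨hz, ?_⟩
        rw [inv_cr_eq_zero hxp hyp hzp] at h
        rw [D_swap'', h, neg_zero]
    · intro hu
      unfold ivK at hu
      rw [mem_image] at hu
      obtain ⟨z, hz, rfl⟩ := hu
      have hzp := ne_of_mem_erase hz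
      have h2 := mem_blk.1 (mem_of_mem_erase hz)
      refine ⟨Or.inr ((mem_ivs hzp).2 h2.1), ?_⟩
      rw [inv_cr_eq_zero hxp hyp hzp, D_swap'', h2.2, neg_zero]
  ext L
  rw [mem_union, mem_image, mem_image]
  unfold lines
  rw [mem_image]
  constructor
  · rintro ⟨⟨u, v⟩, huv, rfl⟩
    rw [mem_offDiag, mem_insert, mem_insert] at huv
    obtain ⟨hu, hv, hne⟩ := huv
    simp only at hu hv hne ⊢
    have two : ∀ x ∈ P, x ≠ p → ∃ a ∈ (image (fun ab => lineOf P ab.1 ab.2) P.offDiag).filter (fun l => p ∈ l),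
        (fun l => insert 0 (ivK p l)) a = lineOf (insert 0 (ivs P p)) 0 (inv p x) := by
      intro x hx hxp
      refine ⟨lineOf P p x, mem_filter.2 ⟨lineOf_mem_lines hp hx hxp.symm, mem_lineOf.2 ⟨hp, cr_self_left _ _⟩⟩, ?_⟩
      exact (key0 x hx hxp).symm
    rcases hu with rfl | hu
    · rcases hv with rfl | hv
      · exact absurd rfl hne
      · obtain ⟨x, hx, hxp, rfl⟩ := exists_of_mem_ivs hv
        exact Or.inr (two x hx hxp)
    · obtain ⟨x, hx, hxp, rfl⟩ := exists_of_mem_ivs hu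
      rcases hv with rfl | hv
      · right
        have := two x hx hxp
        rwa [lineOf_eq (S := insert 0 (ivs P p)) (a := 0) (b := inv p x) (inv_ne_zero hxp).symm
          (cr_self_right _ _) (cr_self_left _ _) (inv_ne_zero hxp)]
      · obtain ⟨y, hy, hyp, rfl⟩ := exists_of_mem_ivs hv
        have hxy : x ≠ y := fun h => hne (by rw [h])
        by_cases hcr : cr p x y = 0
        · right
          have := two x hx hxp
          rwa [lineOf_eq (S := insert 0 (ivs P p)) (a := 0) (b := inv p x) (x := inv p x) (y := inv p y)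
            (inv_ne_zero hxp).symm (cr_self_right _ _) (by rw [← cr_cyc, inv_cr0 hxp hyp]; exact hcr)
            (fun h => hxy (inv_inj hxp hyp h))]
        · left
          have hmem := blk_mem hx hy hp hxy hxp hyp
          refine ⟨blk P x y p, mem_filter.2 ⟨?_, mem_blk.2 ⟨hp, D_self3 _ _ _⟩⟩,
            (key1 x hx y hy hxp hyp hxy hcr).symm⟩
          unfold circs
          rw [mem_filter]
          refine ⟨hmem, ?_⟩
          rw [isL_iff hmem (mem_blk.2 ⟨hx, D_self1 _ _ _⟩) (mem_blk.2 ⟨hy, D_self2 _ _ _⟩)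
            (mem_blk.2 ⟨hp, D_self3 _ _ _⟩) hxy hxp hyp, cr_cyc p x y]
          exact hcr
  · rintro (⟨K, hK, rfl⟩ | ⟨l, hl, rfl⟩)
    · rw [mem_filter] at hK
      obtain ⟨hKc, hpK⟩ := hK
      unfold circs at hKc
      rw [mem_filter] at hKc
      obtain ⟨x, hx, y, hy, hxp, hyp, hxy⟩ := exists_two_ne hKc.1 (p := p)
      have hcr : cr p x y ≠ 0 := by
        intro h
        exact hKc.2 ((isL_iff hKc.1 hpK hx hy hxp.symm hyp.symm hxy).2 h)
      refine ⟨(inv p x, inv p y), mem_offDiag.2 ⟨mem_insert_of_mem ((mem_ivs hxp).2 (blocks_sub hKc.1 hx)),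
        mem_insert_of_mem ((mem_ivs hyp).2 (blocks_sub hKc.1 hy)), fun h => hxy (inv_inj hxp hyp h)⟩, ?_⟩
      simp only
      rw [key1 x (blocks_sub hKc.1 hx) y (blocks_sub hKc.1 hy) hxp hyp hxy hcr,
        ← eq_blk hKc.1 hx hy hpK hxy hxp hyp]
    · rw [mem_filter] at hl
      obtain ⟨x, hx, hxp⟩ : ∃ x ∈ l, x ≠ p := by
        obtain ⟨a, ha, b, hb, hab⟩ := exists_two hl.1
        by_cases h : a = p
        · exact ⟨b, hb, fun h' => hab (h.trans h'.symm)⟩
        · exact ⟨a, ha, h⟩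
      have hxP := line_subset hl.1 hx
      refine ⟨(0, inv p x), mem_offDiag.2 ⟨mem_insert_self _ _, mem_insert_of_mem ((mem_ivs hxp).2 hxP),
        (inv_ne_zero hxp).symm⟩, ?_⟩
      simp only
      rw [key0 x hxP hxp, ← eq_lineOf hl.1 hl.2 hx hxp.symm]

lemma zero_not_mem_ivK {p : Pt} {K : Finset Pt} : (0 : Pt) ∉ ivK p K := by
  unfold ivK
  rw [mem_image]
  rintro ⟨x, hx, h⟩
  exact inv_ne_zero (ne_of_mem_erase hx) h

/-- Melchior's inequality for the inverted set with the centre added -/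
lemma mel2 {p : Pt} (hp : p ∈ P) (hP : P ∉ blocks P) (h3 : 3 ≤ P.card) :
    4 - (P.card : ℤ) ≤ ∑ K ∈ (circs P).filter (fun K => p ∈ K), (4 - (K.card : ℤ)) -
      2 * ∑ K ∈ (lins P).filter (fun K => p ∈ K), ((K.card : ℤ) - 2) := by
  obtain ⟨a, ha, b, hb, c, hc, habc⟩ := noncoll hp hP h3
  have h0 := mel_int (S := insert 0 (ivs P p)) ⟨a, mem_insert_of_mem ha, b, mem_insert_of_mem hb, c,
    mem_insert_of_mem hc, habc⟩
  rw [lines_ivs0 hp, sum_union, sum_image, sum_image] at h0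
  · have e1 : ∑ K ∈ (circs P).filter (fun K => p ∈ K), (3 - ((ivK p K).card : ℤ)) =
        ∑ K ∈ (circs P).filter (fun K => p ∈ K), (4 - (K.card : ℤ)) := by
      apply sum_congr rfl
      intro K hK
      have := ivK_card (mem_filter.1 hK).2
      have h' : ((ivK p K).card : ℤ) + 1 = K.card := by exact_mod_cast this
      linarith
    have e2 : ∑ l ∈ (lines P).filter (fun l => p ∈ l), (3 - ((insert 0 (ivK p l)).card : ℤ)) =
        (P.card - 1) - 2 * ∑ l ∈ (lines P).filter (fun l => p ∈ l), ((l.card : ℤ) - 2) := by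
      rw [← sum_lines_through hp, mul_sum, ← sum_sub_distrib]
      apply sum_congr rfl
      intro l hl
      rw [card_insert_of_notMem zero_not_mem_ivK, ivK_card (mem_filter.1 hl).2]
      ring
    rw [e1, e2] at h0
    have e3 : ∑ K ∈ (lins P).filter (fun K => p ∈ K), ((K.card : ℤ) - 2) ≤
        ∑ l ∈ (lines P).filter (fun l => p ∈ l), ((l.card : ℤ) - 2) := by
      apply sum_le_sum_of_subset_of_nonneg
      · intro K hK
        rw [mem_filter] at hK ⊢
        refine ⟨?_, hK.2⟩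
        unfold lins at hK
        rw [mem_filter] at hK
        obtain ⟨x, hx, y, hy, hxp, hyp, hxy⟩ := exists_two_ne hK.1.1 (p := p)
        rw [isL_eq hK.1.1 hK.1.2 hx hy hxy]
        exact lineOf_mem_lines (blocks_sub hK.1.1 hx) (blocks_sub hK.1.1 hy) hxy
      · intro l hl _
        obtain ⟨a, ha, b, hb, hab⟩ := exists_two (mem_filter.1 hl).1
        have : 1 < l.card := one_lt_card.2 ⟨a, ha, b, hb, hab⟩
        have : (2:ℤ) ≤ l.card := by exact_mod_cast this
        linarith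
    linarith
  · intro l hl l' hl' h
    apply ivK_inj (mem_filter.1 hl).2 (mem_filter.1 hl').2
    have h1 := congrArg (fun s => erase s (0 : Pt)) h
    simp only at h1
    rwa [erase_insert zero_not_mem_ivK, erase_insert zero_not_mem_ivK] at h1
  · intro K hK L hL h
    exact ivK_inj (mem_filter.1 hK).2 (mem_filter.1 hL).2 h
  · rw [disjoint_left]
    intro L hL hL'
    rw [mem_image] at hL hL'
    obtain ⟨K, _, rfl⟩ := hL
    obtain ⟨l, _, hl⟩ := hL'
    apply zero_not_mem_ivK (p := p) (K := K)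
    rw [← hl]
    exact mem_insert_self _ _

end

end Pool.Agent.W2helper83.Cir
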